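import Pool.Agent.Helper64.C3.Jet

set_option autoImplicit false

open Metric Set Filter Topology Asymptotics

namespace Pool.Agent.Helper64.C3.M6

theorem jet_smul (c : ℂ) : Jet (fun z : ℂ => c * z) c 0 0 := by
  unfold Jet
  simp

theorem jet_koebe : Jet koebe 1 2 3 := by
  unfold Jet
  have h1 : (fun z : ℂ => z * ((4 - 3 * z) / (1 - z) ^ 2)) =o[𝓝 0] (fun _ : ℂ => (1 : ℂ)) := by
    rw [isLittleO_one_iff]
    have hc : ContinuousAt (fun z : ℂ => z * ((4 - 3 * z) / (1 - z) ^ 2)) 0 := by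
      have : ((1 : ℂ) - 0) ^ 2 ≠ 0 := by norm_num
      fun_prop (disch := simpa using this)
    have := hc.tendsto
    simpa using this
  have h2 := (isBigO_refl (fun z : ℂ => z ^ 3) (𝓝 0)).mul_isLittleO h1
  simp only [mul_one] at h2
  refine h2.congr' ?_ (EventuallyEq.refl _ _)
  have hne : ∀ᶠ z : ℂ in 𝓝 0, z ≠ 1 := by
    exact isOpen_ne.mem_nhds (by simp : (0 : ℂ) ≠ 1)
  filter_upwards [hne] with z hz
  have hz' : (1 - z) ≠ 0 := sub_ne_zero.2 (Ne.symm hz)
  unfold koebe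
  field_simp
  ring

theorem one_sub_ne {z : ℂ} (hz : z ∈ ball (0 : ℂ) 1) : 1 - z ≠ 0 := by
  intro h
  have : z = 1 := by linear_combination -h
  rw [this] at hz
  simp at hz

/-- the half plane coordinate -/
noncomputable def hp (z : ℂ) : ℂ := (1 + z) / (1 - z)

theorem hp_re {z : ℂ} (hz : z ∈ ball (0 : ℂ) 1) : 0 < (hp z).re := by
  have hz1 : ‖z‖ < 1 := by simpa using hz
  have h1 := one_sub_ne hz
  have h2 : 0 < Complex.normSq (1 - z) := Complex.normSq_pos.2 h1
  have h3 : z.re ^ 2 + z.im ^ 2 < 1 := by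
    have : Complex.normSq z < 1 := by
      rw [Complex.normSq_eq_norm_sq]
      nlinarith [norm_nonneg z]
    rw [Complex.normSq_apply] at this
    nlinarith
  unfold hp
  rw [Complex.div_re]
  rw [← add_div]
  apply div_pos _ h2
  simp
  nlinarith

theorem hp_inj {z w : ℂ} (hz : z ∈ ball (0 : ℂ) 1) (hw : w ∈ ball (0 : ℂ) 1) (h : hp z = hp w) :
    z = w := by
  have h1 := one_sub_ne hz
  have h2 := one_sub_ne hw
  unfold hp at h
  rw [div_eq_div_iff h1 h2] at h
  linear_combination h / 2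

theorem koebe_eq {z : ℂ} (hz : z ∈ ball (0 : ℂ) 1) : 4 * koebe z = (hp z) ^ 2 - 1 := by
  have h1 := one_sub_ne hz
  unfold koebe hp
  field_simp
  ring

theorem koebe_inj : InjOn koebe (ball 0 1) := by
  intro z hz w hw h
  have h1 : (hp z) ^ 2 = (hp w) ^ 2 := by
    have a := koebe_eq hz
    have b := koebe_eq hw
    rw [h] at a
    linear_combination b - a
  rcases sq_eq_sq_iff_eq_or_eq_neg.1 h1 with h2 | h2
  · exact hp_inj hz hw h2
  · exfalso
    have a := hp_re hz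
    have b := hp_re hw
    rw [h2] at a
    simp at a
    linarith

theorem koebe_diff : DifferentiableOn ℂ koebe (ball 0 1) := by
  intro z hz
  apply DifferentiableAt.differentiableWithinAt
  unfold koebe
  have h1 := one_sub_ne hz
  have : (1 - z) ^ 2 ≠ 0 := pow_ne_zero _ h1
  fun_prop (disch := exact this)

/-- the argument of the square root for the slit map -/
noncomputable def inner (q : ℝ) (z : ℂ) : ℂ := (1 - q) + q * (hp z) ^ 2

theorem inner_mem {q : ℝ} (hq0 : 0 < q) (hq1 : q < 1) {z : ℂ} (hz : z ∈ ball (0 : ℂ) 1) :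
    inner q z ∈ Complex.slitPlane := by
  have h := hp_re hz
  rw [Complex.mem_slitPlane_iff]
  by_cases him : (hp z).im = 0
  · left
    have : ((hp z) ^ 2).re = (hp z).re ^ 2 := by
      rw [sq, Complex.mul_re, him]; ring
    unfold inner
    simp only [Complex.add_re, Complex.sub_re, Complex.one_re, Complex.ofReal_re,
      Complex.re_ofReal_mul, this]
    nlinarith [mul_pos hq0 (pow_pos h 2)]
  · right
    unfold inner
    have : ((hp z) ^ 2).im = 2 * (hp z).re * (hp z).im := by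
      rw [sq, Complex.mul_im]; ring
    simp only [Complex.add_im, Complex.sub_im, Complex.one_im, Complex.ofReal_im,
      Complex.im_ofReal_mul, this]
    simp only [sub_self, zero_add]
    exact mul_ne_zero hq0.ne' (mul_ne_zero (mul_ne_zero two_ne_zero h.ne') him)

/-- the square root -/
noncomputable def sq' (q : ℝ) (z : ℂ) : ℂ := (inner q z) ^ ((2 : ℂ)⁻¹)

theorem sq'_sq (q : ℝ) (z : ℂ) : (sq' q z) ^ 2 = inner q z := by
  unfold sq'
  exact Complex.cpow_nat_inv_pow (inner q z) two_ne_zero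

theorem sq'_re {q : ℝ} (hq0 : 0 < q) (hq1 : q < 1) {z : ℂ} (hz : z ∈ ball (0 : ℂ) 1) :
    0 < (sq' q z).re := by
  have h := inner_mem hq0 hq1 hz
  have hne : inner q z ≠ 0 := Complex.slitPlane_ne_zero h
  have harg : Complex.arg (inner q z) ≠ Real.pi := Complex.slitPlane_arg_ne_pi h
  unfold sq'
  rw [Complex.cpow_def_of_ne_zero hne, Complex.exp_re]
  apply mul_pos (Real.exp_pos _)
  apply Real.cos_pos_of_mem_Ioo
  have him : (Complex.log (inner q z) * (2 : ℂ)⁻¹).im = Complex.arg (inner q z) / 2 := by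
    have : (Complex.log (inner q z) * (2 : ℂ)⁻¹) = Complex.log (inner q z) / (2 : ℝ) := by
      push_cast; ring
    rw [this, Complex.div_ofReal_im, Complex.log_im]
  rw [him]
  have h1 := Complex.neg_pi_lt_arg (inner q z)
  have h2 := lt_of_le_of_ne (Complex.arg_le_pi (inner q z)) harg
  constructor <;> linarith

/-- the Pick slit map -/
noncomputable def pick (q : ℝ) (z : ℂ) : ℂ := (sq' q z - 1) / (sq' q z + 1)

theorem add_one_ne {s : ℂ} (hs : 0 < s.re) : s + 1 ≠ 0 := by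
  intro h
  have := congrArg Complex.re h
  simp at this
  linarith

theorem mob_mem {s : ℂ} (hs : 0 < s.re) : (s - 1) / (s + 1) ∈ ball (0 : ℂ) 1 := by
  have h := add_one_ne hs
  rw [mem_ball_zero_iff, norm_div, div_lt_one (norm_pos_iff.2 h)]
  rw [← sq_lt_sq₀ (norm_nonneg _) (norm_nonneg _), ← Complex.normSq_eq_norm_sq,
    ← Complex.normSq_eq_norm_sq, Complex.normSq_apply, Complex.normSq_apply]
  simp
  nlinarith

theorem hp_mob {s : ℂ} (hs : 0 < s.re) : hp ((s - 1) / (s + 1)) = s := by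
  have h := add_one_ne hs
  unfold hp
  have h2 : 1 - (s - 1) / (s + 1) = 2 / (s + 1) := by field_simp; ring
  have h3 : 1 + (s - 1) / (s + 1) = 2 * s / (s + 1) := by field_simp; ring
  rw [h2, h3]
  field_simp

theorem pick_mem {q : ℝ} (hq0 : 0 < q) (hq1 : q < 1) {z : ℂ} (hz : z ∈ ball (0 : ℂ) 1) :
    pick q z ∈ ball (0 : ℂ) 1 := mob_mem (sq'_re hq0 hq1 hz)

theorem pick_koebe {q : ℝ} (hq0 : 0 < q) (hq1 : q < 1) {z : ℂ} (hz : z ∈ ball (0 : ℂ) 1) :
    koebe (pick q z) = q * koebe z := by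
  have h1 := koebe_eq (pick_mem hq0 hq1 hz)
  have h2 := koebe_eq hz
  unfold pick at h1 ⊢
  rw [hp_mob (sq'_re hq0 hq1 hz), sq'_sq] at h1
  unfold inner at h1
  linear_combination h1 / 4 - q * h2 / 4

theorem pick_inj {q : ℝ} (hq0 : 0 < q) (hq1 : q < 1) : InjOn (pick q) (ball 0 1) := by
  intro z hz w hw h
  have h1 := pick_koebe hq0 hq1 hz
  have h2 := pick_koebe hq0 hq1 hw
  rw [h, h2] at h1
  have hq : (q : ℂ) ≠ 0 := by exact_mod_cast hq0.ne'
  exact koebe_inj hz hw (mul_left_cancel₀ hq h1.symm)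

theorem pick_zero (q : ℝ) : pick q 0 = 0 := by
  have h0 : inner q 0 = 1 := by unfold inner hp; simp
  have : sq' q 0 = 1 := by unfold sq'; rw [h0]; simp
  unfold pick
  rw [this]
  simp

theorem hp_diffAt {z : ℂ} (hz : z ∈ ball (0 : ℂ) 1) : DifferentiableAt ℂ hp z := by
  unfold hp
  have h1 := one_sub_ne hz
  fun_prop (disch := exact h1)

theorem pick_diff {q : ℝ} (hq0 : 0 < q) (hq1 : q < 1) : DifferentiableOn ℂ (pick q) (ball 0 1) := by
  intro z hz
  apply DifferentiableAt.differentiableWithinAt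
  have h1 : DifferentiableAt ℂ (inner q) z := by
    have := hp_diffAt hz
    unfold inner
    fun_prop
  have h2 : DifferentiableAt ℂ (sq' q) z := by
    unfold sq'
    exact h1.cpow (differentiableAt_const _) (inner_mem hq0 hq1 hz)
  unfold pick
  have h3 := add_one_ne (sq'_re hq0 hq1 hz)
  exact (h2.sub_const 1).div (h2.add_const 1) h3

theorem jet_congr {F G : ℂ → ℂ} {a b c : ℂ} (hF : Jet F a b c) (h : EqOn F G (ball 0 1)) :
    Jet G a b c := by
  unfold Jet at hF ⊢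
  refine hF.congr' ?_ (EventuallyEq.refl _ _)
  filter_upwards [ball_mem_nhds (0 : ℂ) one_pos] with z hz
  rw [h hz]

theorem jet_pick {q : ℝ} (hq0 : 0 < q) (hq1 : q < 1) :
    Jet (pick q) q (2 * q * (1 - q)) (q * (1 - q) * (3 - 5 * q)) := by
  have h1 := jet_of_diff (pick_diff hq0 hq1) (pick_zero q)
  have h2 := jet_comp jet_koebe h1
  have h3 : Jet ((fun z : ℂ => (q : ℂ) * z) ∘ koebe) _ _ _ := jet_comp (jet_smul (q : ℂ)) jet_koebe
  have h4 := jet_congr h2 (fun z hz => by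
    show koebe (pick q z) = ((fun z : ℂ => (q : ℂ) * z) ∘ koebe) z
    exact pick_koebe hq0 hq1 hz)
  obtain ⟨e1, e2, e3⟩ := jet_unique h4 h3
  have e1' : deriv (pick q) 0 = q := by linear_combination e1
  rw [e1'] at e2 e3 h1
  have e2' : coeff 2 (pick q) = 2 * q * (1 - q) := by linear_combination e2
  rw [e2'] at e3 h1
  have e3' : coeff 3 (pick q) = q * (1 - q) * (3 - 5 * q) := by linear_combination e3
  rw [e3'] at h1
  exact h1

theorem rot_mem {u : ℂ} (hu : ‖u‖ = 1) {z : ℂ} (hz : z ∈ ball (0 : ℂ) 1) :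
    u * z ∈ ball (0 : ℂ) 1 := by
  rw [mem_ball_zero_iff, norm_mul, hu, one_mul]
  simpa using hz

/-- rotation of a function -/
noncomputable def rotf (u : ℂ) (F : ℂ → ℂ) (z : ℂ) : ℂ := u⁻¹ * F (u * z)

theorem rotf_diff {u : ℂ} (hu : ‖u‖ = 1) {F : ℂ → ℂ} (hF : DifferentiableOn ℂ F (ball 0 1)) :
    DifferentiableOn ℂ (rotf u F) (ball 0 1) := by
  unfold rotf
  apply DifferentiableOn.const_mul
  exact hF.comp (by fun_prop) (fun z hz => rot_mem hu hz)

theorem rotf_inj {u : ℂ} (hu : ‖u‖ = 1) {F : ℂ → ℂ} (hF : InjOn F (ball 0 1)) :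
    InjOn (rotf u F) (ball 0 1) := by
  intro z hz w hw h
  have hu0 : u ≠ 0 := by intro h0; rw [h0] at hu; simp at hu
  unfold rotf at h
  have h1 := mul_left_cancel₀ (inv_ne_zero hu0) h
  exact mul_left_cancel₀ hu0 (hF (rot_mem hu hz) (rot_mem hu hw) h1)

theorem rotf_zero (u : ℂ) {F : ℂ → ℂ} (hF : F 0 = 0) : rotf u F 0 = 0 := by
  unfold rotf
  simp [hF]

theorem rotf_jet {u : ℂ} (hu : ‖u‖ = 1) {F : ℂ → ℂ} {a b c : ℂ} (hF : Jet F a b c) :
    Jet (rotf u F) a (u * b) (u ^ 2 * c) := by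
  have hu0 : u ≠ 0 := by intro h0; rw [h0] at hu; simp at hu
  have h := jet_comp (jet_smul u⁻¹) (jet_comp hF (jet_smul u))
  have e : (fun z : ℂ => u⁻¹ * z) ∘ (F ∘ fun z : ℂ => u * z) = rotf u F := by
    funext z; simp [rotf]
  rw [e] at h
  convert h using 1 <;> field_simp <;> ring

theorem rotf_mem {u : ℂ} (hu : ‖u‖ = 1) {F : ℂ → ℂ} (hF : MapsTo F (ball 0 1) (ball 0 1)) :
    MapsTo (rotf u F) (ball 0 1) (ball 0 1) := by
  intro z hz
  unfold rotf
  exact rot_mem (by rw [norm_inv, hu, inv_one]) (hF (rot_mem hu hz))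

theorem lower_aux (θ : ℕ → ℝ) (n : ℕ) (hn : 1 ≤ n) :
    ∃ f : ℂ → ℂ, DifferentiableOn ℂ f (ball 0 1) ∧ InjOn f (ball 0 1) ∧ f 0 = 0 ∧
      ∃ A B : ℂ, Jet f 1 A B ∧
      A = (2 / n : ℂ) * ∑ j ∈ Finset.range n, Complex.exp (θ j * Complex.I) ∧
      B - A ^ 2 =
        - ∑ j ∈ Finset.range n, ((2 * j + 1 : ℂ) / n ^ 2) * Complex.exp (2 * θ j * Complex.I) := by
  induction n, hn using Nat.le_induction with
  | base =>
    set u : ℂ := Complex.exp (θ 0 * Complex.I) with hu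
    have hu1 : ‖u‖ = 1 := Complex.norm_exp_ofReal_mul_I (θ 0)
    have hu2 : Complex.exp (2 * θ 0 * Complex.I) = u ^ 2 := by
      rw [hu, ← Complex.exp_nat_mul]
      congr 1
      push_cast; ring
    refine ⟨rotf u koebe, rotf_diff hu1 koebe_diff, rotf_inj hu1 koebe_inj,
      rotf_zero u (by simp [koebe]), u * 2, u ^ 2 * 3, rotf_jet hu1 jet_koebe, ?_, ?_⟩
    · simp [← hu]; ring
    · simp only [Nat.cast_one, Finset.range_one, Finset.sum_singleton, Nat.cast_zero, hu2]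
      ring
  | succ m hm ih =>
    obtain ⟨f, hd, hi, h0, A, B, hJ, hA, hB⟩ := ih
    set u : ℂ := Complex.exp (θ m * Complex.I) with hu
    have hu1 : ‖u‖ = 1 := Complex.norm_exp_ofReal_mul_I (θ m)
    have hu2 : Complex.exp (2 * θ m * Complex.I) = u ^ 2 := by
      rw [hu, ← Complex.exp_nat_mul]
      congr 1
      push_cast; ring
    set q : ℝ := m / (m + 1) with hq
    have hm0 : (0 : ℝ) < m := by exact_mod_cast hm
    have hq0 : 0 < q := by positivity
    have hq1 : q < 1 := by rw [hq, div_lt_one (by positivity)]; linarith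
    have hqc : (q : ℂ) = m / (m + 1) := by rw [hq]; push_cast; rfl
    have hqne : (q : ℂ) ≠ 0 := by exact_mod_cast hq0.ne'
    have hmc : (m : ℂ) ≠ 0 := by exact_mod_cast hm0.ne'
    have hmc1 : (m : ℂ) + 1 ≠ 0 := by exact_mod_cast (by positivity : (0 : ℝ) < (m : ℝ) + 1).ne'
    have hmaps : MapsTo (rotf u (pick q)) (ball 0 1) (ball 0 1) :=
      rotf_mem hu1 (fun z hz => pick_mem hq0 hq1 hz)
    have hPd := rotf_diff hu1 (pick_diff hq0 hq1)
    have hPi := rotf_inj hu1 (pick_inj hq0 hq1)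
    have hPJ := rotf_jet hu1 (jet_pick hq0 hq1)
    have hJJ := jet_comp (jet_smul (q : ℂ)⁻¹) (jet_comp hJ hPJ)
    have e : (q : ℂ)⁻¹ * (1 * q) = 1 := by field_simp
    rw [e] at hJJ
    refine ⟨(fun z : ℂ => (q : ℂ)⁻¹ * z) ∘ (f ∘ rotf u (pick q)), ?_, ?_, ?_, _, _, hJJ, ?_, ?_⟩
    · exact (hd.comp hPd hmaps).const_mul _
    · intro z hz w hw h
      have h1 := mul_left_cancel₀ (inv_ne_zero hqne) h
      exact hPi hz hw (hi (hmaps hz) (hmaps hw) h1)
    · simp [rotf_zero u (pick_zero q), h0]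
    · rw [Finset.sum_range_succ, ← hu, hA, hqc]
      generalize ∑ j ∈ Finset.range m, Complex.exp (θ j * Complex.I) = S
      push_cast
      field_simp
      ring
    · rw [Finset.sum_range_succ, hu2]
      have hB' : B = A ^ 2 - ∑ j ∈ Finset.range m,
          ((2 * j + 1 : ℂ) / m ^ 2) * Complex.exp (2 * θ j * Complex.I) := by
        linear_combination hB
      have hS : ∑ j ∈ Finset.range m, ((2 * j + 1 : ℂ) / ((m + 1 : ℕ) : ℂ) ^ 2)
            * Complex.exp (2 * θ j * Complex.I) =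
          (q : ℂ) ^ 2 * ∑ j ∈ Finset.range m,
          ((2 * j + 1 : ℂ) / m ^ 2) * Complex.exp (2 * θ j * Complex.I) := by
        rw [Finset.mul_sum]
        apply Finset.sum_congr rfl
        intro j _
        rw [hqc]
        push_cast
        field_simp
      rw [hS, hB']
      have e2 : (((2 * m + 1 : ℂ)) / ((m + 1 : ℕ) : ℂ) ^ 2) = 1 - (q : ℂ) ^ 2 := by
        rw [hqc]; push_cast; field_simp; ring
      rw [e2]
      generalize ∑ j ∈ Finset.range m,
          ((2 * j + 1 : ℂ) / m ^ 2) * Complex.exp (2 * θ j * Complex.I) = S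
      field_simp
      ring

end Pool.Agent.Helper64.C3.M6

namespace Pool.Agent.Helper64.C3

theorem lower_functions (n : ℕ) (hn : 0 < n) (θ : ℕ → ℝ) :
    ∃ f : ℂ → ℂ, ClassS f ∧
      coeff 2 f = (2 / n : ℂ) * ∑ j ∈ Finset.range n, Complex.exp (θ j * Complex.I) ∧
      coeff 3 f - (coeff 2 f) ^ 2 =
        - ∑ j ∈ Finset.range n, ((2 * j + 1 : ℂ) / n ^ 2) * Complex.exp (2 * θ j * Complex.I) := by
  obtain ⟨f, hd, hi, h0, A, B, hJ, hA, hB⟩ := M6.lower_aux θ n hn
  obtain ⟨e1, e2, e3⟩ := jet_unique (jet_of_diff hd h0) hJ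
  exact ⟨f, ⟨hd, hi, h0, e1⟩, by rw [e2, hA], by rw [e2, e3, hB]⟩

end Pool.Agent.Helper64.C3
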