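import Mathlib

set_option autoImplicit false

open Matrix Finset

namespace Pool.Agent.Helper33.EdgeDeletionEnergy

open Classical in
/-- The energy of a finite simple graph: the sum of the absolute values of the eigenvalues
(with multiplicity) of its real adjacency matrix. -/
noncomputable def energy {V : Type*} [Fintype V] (G : SimpleGraph V) : ℝ :=
  ∑ i, |(G.isHermitian_adjMatrix ℝ).eigenvalues i|

section aux

variable {V : Type*} [Fintype V] [DecidableEq V]

/-- Spectral decomposition of a real Hermitian matrix, with an explicit orthogonal matrix. -/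
lemma spec_decomp {M : Matrix V V ℝ} (hM : M.IsHermitian) :
    ∃ U : Matrix V V ℝ, U * Uᵀ = 1 ∧ Uᵀ * U = 1 ∧ M = U * diagonal hM.eigenvalues * Uᵀ := by
  refine ⟨(hM.eigenvectorUnitary : Matrix V V ℝ), ?_, ?_, ?_⟩
  · have := Unitary.coe_mul_star_self hM.eigenvectorUnitary
    simpa [star_eq_conjTranspose] using this
  · have := Unitary.coe_star_mul_self hM.eigenvectorUnitary
    simpa [star_eq_conjTranspose] using this
  · have h := hM.spectral_theorem
    rw [Unitary.conjStarAlgAut_apply] at h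
    conv_lhs => rw [h]
    simp [star_eq_conjTranspose]

/-- Diagonal entries of a conjugated diagonal matrix. -/
lemma conj_diag_apply (Q : Matrix V V ℝ) (d : V → ℝ) (i : V) :
    (Q * diagonal d * Qᵀ) i i = ∑ j, d j * (Q i j) ^ 2 := by
  rw [mul_apply]
  refine Finset.sum_congr rfl fun j _ => ?_
  rw [mul_diagonal, transpose_apply]
  ring

lemma conj_diag_apply' (Q : Matrix V V ℝ) (d : V → ℝ) (i k : V) :
    (Q * diagonal d * Qᵀ) i k = ∑ j, d j * (Q i j * Q k j) := by
  rw [mul_apply]
  refine Finset.sum_congr rfl fun j _ => ?_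
  rw [mul_diagonal, transpose_apply]
  ring

/-- The matrix inequality behind the theorem. -/
lemma main_ineq {A A' : Matrix V V ℝ} (hA : A.IsHermitian) (hA' : A'.IsHermitian) {u v : V}
    (hB : A = A' + (Matrix.single u v 1 + Matrix.single v u 1)) (h0 : A' u v = 0) :
    ∑ i, |hA'.eigenvalues i| < ∑ i, |hA.eigenvalues i| + 2 := by
  obtain ⟨U, hU1, hU2, hUM⟩ := spec_decomp hA'
  obtain ⟨W, hW1, hW2, hWM⟩ := spec_decomp hA
  set μ := hA'.eigenvalues with hμ
  set ν := hA.eigenvalues with hν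
  set Q : Matrix V V ℝ := Uᵀ * W with hQ
  have hQQ : Qᵀ * Q = 1 := by
    rw [hQ, transpose_mul, transpose_transpose, Matrix.mul_assoc, ← Matrix.mul_assoc U,
      hU1, Matrix.one_mul, hW2]
  have hcol : ∀ j, ∑ i, (Q i j) ^ 2 = 1 := by
    intro j
    have := congrFun (congrFun hQQ j) j
    rw [mul_apply, one_apply_eq] at this
    rw [← this]
    exact Finset.sum_congr rfl fun i _ => by rw [transpose_apply]; ring
  have hrow : ∀ w, ∑ i, (U w i) ^ 2 = 1 := by
    intro w
    have := congrFun (congrFun hU1 w) w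
    rw [mul_apply, one_apply_eq] at this
    rw [← this]
    exact Finset.sum_congr rfl fun i _ => by rw [transpose_apply]; ring
  -- diagonal entries of the conjugated matrices
  have h1 : Uᵀ * A' * U = diagonal μ := by
    rw [hUM]
    calc Uᵀ * (U * diagonal μ * Uᵀ) * U = (Uᵀ * U) * diagonal μ * (Uᵀ * U) := by
          simp only [Matrix.mul_assoc]
      _ = diagonal μ := by rw [hU2]; simp
  have h2 : Uᵀ * A * U = Q * diagonal ν * Qᵀ := by
    conv_lhs => rw [hWM]
    rw [hQ, transpose_mul, transpose_transpose]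
    simp only [Matrix.mul_assoc]
  set B : Matrix V V ℝ := Matrix.single u v (1 : ℝ) + Matrix.single v u (1 : ℝ) with hBdef
  have h3 : ∀ i, (Uᵀ * B * U) i i = 2 * (U u i * U v i) := by
    intro i
    rw [hBdef, Matrix.mul_add, Matrix.add_mul, Matrix.add_apply]
    have hs : ∀ a b : V, (Uᵀ * (Matrix.single a b (1 : ℝ) : Matrix V V ℝ) * U) i i
        = U a i * U b i := by
      intro a b
      rw [mul_apply]
      rw [Finset.sum_eq_single b]
      · simp [Matrix.mul_apply, Matrix.single_apply]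
      · intro c _ hc
        simp [Matrix.mul_apply, hc.symm]
      · simp
    rw [hs, hs]; ring
  have hmu : ∀ i, μ i = (∑ j, ν j * (Q i j) ^ 2) - 2 * (U u i * U v i) := by
    intro i
    have e1 : (Uᵀ * A * U) i i = (Uᵀ * A' * U) i i + (Uᵀ * B * U) i i := by
      rw [hB, Matrix.mul_add, Matrix.add_mul, Matrix.add_apply]
    rw [h1, h2, h3, conj_diag_apply, diagonal_apply_eq] at e1
    linarith
  -- pointwise bounds
  have hpt : ∀ i, |μ i| ≤ (∑ j, |ν j| * (Q i j) ^ 2) + ((U u i) ^ 2 + (U v i) ^ 2) := by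
    intro i
    have hb : |∑ j, ν j * (Q i j) ^ 2| ≤ ∑ j, |ν j| * (Q i j) ^ 2 := by
      refine (Finset.abs_sum_le_sum_abs _ _).trans (le_of_eq ?_)
      refine Finset.sum_congr rfl fun j _ => ?_
      rw [abs_mul, abs_of_nonneg (sq_nonneg (Q i j))]
    have hc : |2 * (U u i * U v i)| ≤ (U u i) ^ 2 + (U v i) ^ 2 := by
      rw [abs_le]
      constructor <;> nlinarith [sq_nonneg (U u i + U v i), sq_nonneg (U u i - U v i)]
    rw [hmu i]
    calc |(∑ j, ν j * (Q i j) ^ 2) - 2 * (U u i * U v i)|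
        ≤ |∑ j, ν j * (Q i j) ^ 2| + |2 * (U u i * U v i)| := abs_sub _ _
      _ ≤ _ := add_le_add hb hc
  have hsum : ∑ i, ((∑ j, |ν j| * (Q i j) ^ 2) + ((U u i) ^ 2 + (U v i) ^ 2))
      = ∑ j, |ν j| + 2 := by
    rw [Finset.sum_add_distrib, Finset.sum_add_distrib, hrow, hrow, Finset.sum_comm]
    have : ∀ j, ∑ i, |ν j| * (Q i j) ^ 2 = |ν j| := by
      intro j
      rw [← Finset.mul_sum, hcol, mul_one]
    simp only [this]
    norm_num
  refine lt_of_le_of_ne ((Finset.sum_le_sum fun i _ => hpt i).trans_eq hsum) ?_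
  intro heq
  -- equality everywhere
  have hall : ∀ i, |μ i| = (∑ j, |ν j| * (Q i j) ^ 2) + ((U u i) ^ 2 + (U v i) ^ 2) := by
    have := (Finset.sum_eq_sum_iff_of_le (fun i _ => hpt i)).1 (heq.trans hsum.symm)
    exact fun i => this i (Finset.mem_univ i)
  -- key pointwise identity
  have hkey : ∀ i, |μ i| * ((U u i) ^ 2 + (U v i) ^ 2) = - (2 * (μ i * (U u i * U v i)))
      ∧ (μ i = 0 → (U u i) ^ 2 + (U v i) ^ 2 = 0) := by
    intro i
    have hb : |∑ j, ν j * (Q i j) ^ 2| ≤ ∑ j, |ν j| * (Q i j) ^ 2 := by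
      refine (Finset.abs_sum_le_sum_abs _ _).trans (le_of_eq ?_)
      refine Finset.sum_congr rfl fun j _ => ?_
      rw [abs_mul, abs_of_nonneg (sq_nonneg (Q i j))]
    have hnn : 0 ≤ ∑ j, |ν j| * (Q i j) ^ 2 :=
      Finset.sum_nonneg fun j _ => mul_nonneg (abs_nonneg _) (sq_nonneg _)
    have hi := hall i
    have hmi := hmu i
    rw [abs_le] at hb
    set S := ∑ j, ν j * (Q i j) ^ 2
    set T := ∑ j, |ν j| * (Q i j) ^ 2
    constructor
    · rcases le_or_gt 0 (μ i) with hp | hp
      · rw [abs_of_nonneg hp] at hi ⊢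
        have : (U u i) ^ 2 + (U v i) ^ 2 = - (2 * (U u i * U v i)) := by
          have h1 : (U u i) ^ 2 + (U v i) ^ 2 ≤ - (2 * (U u i * U v i)) := by linarith [hb.2]
          nlinarith [sq_nonneg (U u i + U v i)]
        rw [this]; ring
      · rw [abs_of_neg hp] at hi ⊢
        have : (U u i) ^ 2 + (U v i) ^ 2 = (2 * (U u i * U v i)) := by
          have h1 : (U u i) ^ 2 + (U v i) ^ 2 ≤ (2 * (U u i * U v i)) := by linarith [hb.1]
          nlinarith [sq_nonneg (U u i - U v i)]
        rw [this]; ring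
    · intro hz
      rw [hz, abs_zero] at hi
      nlinarith [sq_nonneg (U u i), sq_nonneg (U v i)]
  have hA'uv : ∑ i, μ i * (U u i * U v i) = 0 := by
    have := h0
    rw [hUM, conj_diag_apply'] at this
    exact this
  have hz : ∑ i, |μ i| * ((U u i) ^ 2 + (U v i) ^ 2) = 0 := by
    calc ∑ i, |μ i| * ((U u i) ^ 2 + (U v i) ^ 2)
        = ∑ i, - (2 * (μ i * (U u i * U v i))) := Finset.sum_congr rfl fun i _ => (hkey i).1
      _ = - (2 * ∑ i, μ i * (U u i * U v i)) := by rw [Finset.sum_neg_distrib, Finset.mul_sum]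
      _ = 0 := by rw [hA'uv]; simp
  have hz' : ∀ i, |μ i| * ((U u i) ^ 2 + (U v i) ^ 2) = 0 := by
    have := (Finset.sum_eq_zero_iff_of_nonneg (fun i _ =>
      mul_nonneg (abs_nonneg (μ i)) (add_nonneg (sq_nonneg (U u i)) (sq_nonneg (U v i))))).1 hz
    exact fun i => this i (Finset.mem_univ i)
  have hfin : ∀ i, (U u i) ^ 2 = 0 := by
    intro i
    have h : (U u i) ^ 2 + (U v i) ^ 2 = 0 := by
      rcases mul_eq_zero.1 (hz' i) with h | h
      · exact (hkey i).2 (abs_eq_zero.1 h)
      · exact h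
    nlinarith [sq_nonneg (U u i), sq_nonneg (U v i)]
  have := hrow u
  simp only [hfin, Finset.sum_const_zero] at this
  exact zero_ne_one this

end aux

/-- Deleting an edge from a finite simple graph always raises the energy by strictly less than 2. -/
theorem result {V : Type*} [Fintype V] (G : SimpleGraph V) (e : Sym2 V) (he : e ∈ G.edgeSet) :
    energy (G.deleteEdges {e}) < energy G + 2 := by
  classical
  induction e using Sym2.ind with
  | _ u v =>
  rw [SimpleGraph.mem_edgeSet] at he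
  have hne : u ≠ v := he.ne
  unfold energy
  refine main_ineq (u := u) (v := v) _ _ ?_ ?_
  · ext a b
    rw [Matrix.add_apply, Matrix.add_apply, SimpleGraph.adjMatrix_apply,
      SimpleGraph.adjMatrix_apply, Matrix.single_apply, Matrix.single_apply]
    by_cases h1 : u = a ∧ v = b
    · obtain ⟨rfl, rfl⟩ := h1
      simp [he, hne.symm, SimpleGraph.deleteEdges_adj]
    · by_cases h2 : v = a ∧ u = b
      · obtain ⟨rfl, rfl⟩ := h2
        simp [he.symm, hne, SimpleGraph.deleteEdges_adj, Sym2.eq_swap]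
      · have h3 : ¬ ((a = u ∧ b = v) ∨ (a = v ∧ b = u)) := by
          rintro (⟨rfl, rfl⟩ | ⟨rfl, rfl⟩)
          · exact h1 ⟨rfl, rfl⟩
          · exact h2 ⟨rfl, rfl⟩
        simp [h1, h2, h3, SimpleGraph.deleteEdges_adj]
  · rw [SimpleGraph.adjMatrix_apply]
    simp [SimpleGraph.deleteEdges_adj]

end Pool.Agent.Helper33.EdgeDeletionEnergy
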