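import Mathlib

set_option autoImplicit false

open Finset
open scoped FinsetFamily

namespace Pool.Agent.Helper33.Flat

/-- `𝒜` is a maximal antichain of the lattice of all subsets of `Fin n` (maximality is with respect
to the whole lattice) all of whose members have `l` or `l + 1` elements. -/
def IsFlatMax (n l : ℕ) (𝒜 : Finset (Finset (Fin n))) : Prop :=
  IsMaxAntichain (· ⊆ ·) (𝒜 : Set (Finset (Fin n))) ∧ ∀ s ∈ 𝒜, s.card = l ∨ s.card = l + 1

section construction

variable {n l : ℕ}

/-- `K` is closed: every `(l+1)`-set all of whose `l`-subsets are in the shadow of `K` is in `K`. -/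
def Closed {V : Type*} [DecidableEq V] (l : ℕ) (K : Finset (Finset V)) : Prop :=
  (∀ Y ∈ K, Y.card = l + 1) ∧
    ∀ Y : Finset V, Y.card = l + 1 → (∀ y ∈ Y, Y.erase y ∈ ∂ K) → Y ∈ K

/-- The antichain attached to a closed family. -/
noncomputable def anti (K : Finset (Finset (Fin n))) (l : ℕ) : Finset (Finset (Fin n)) :=
  K ∪ ((Finset.univ.powersetCard l).filter fun X => X ∉ ∂ K)

lemma shadow_card {V : Type*} [DecidableEq V] {K : Finset (Finset V)} (hK : Closed l K) :
    ∀ X ∈ ∂ K, X.card = l := by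
  intro X hX
  obtain ⟨s, hs, a, ha, rfl⟩ := mem_shadow_iff.1 hX
  rw [card_erase_of_mem ha, hK.1 s hs]
  rfl

lemma mem_anti {K : Finset (Finset (Fin n))} {X : Finset (Fin n)} :
    X ∈ anti K l ↔ X ∈ K ∨ (X.card = l ∧ X ∉ ∂ K) := by
  simp [anti, mem_powersetCard]

lemma anti_isFlatMax (K : Finset (Finset (Fin n))) (hl : l ≤ n) (hK : Closed l K) :
    IsFlatMax n l (anti K l) := by
  have hsub_mem : ∀ X Y : Finset (Fin n), Y ∈ K → X.card = l → X ⊆ Y → X ∈ ∂ K := by
    intro X Y hY hX hXY
    exact mem_shadow_iff_exists_mem_card_add_one.2 ⟨Y, hY, hXY, by rw [hK.1 Y hY, hX]⟩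
  refine ⟨⟨?_, ?_⟩, ?_⟩
  · intro X hX Y hY hne hXY
    rw [mem_coe, mem_anti] at hX hY
    apply hne
    rcases hX with hX | ⟨hX, hX'⟩ <;> rcases hY with hY | ⟨hY, hY'⟩
    · exact eq_of_subset_of_card_le hXY (by rw [hK.1 X hX, hK.1 Y hY])
    · have := card_le_card hXY
      rw [hK.1 X hX, hY] at this
      omega
    · exact absurd (hsub_mem X Y hY hX hXY) hX'
    · exact eq_of_subset_of_card_le hXY (by rw [hX, hY])
  · intro t ht hsub
    apply Set.Subset.antisymm hsub
    intro X hX
    by_contra hXn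
    have hXA : X ∉ anti K l := hXn
    -- a comparable member of the antichain gives a contradiction
    have key : ∀ B ∈ anti K l, (X ⊆ B ∨ B ⊆ X) → False := by
      intro B hB hcomp
      have hBt : B ∈ t := hsub (by exact_mod_cast hB)
      have hne : X ≠ B := fun h => hXA (h ▸ hB)
      rcases hcomp with h | h
      · exact ht hX hBt hne h
      · exact ht hBt hX hne.symm h
    -- any `l`-set is comparable to a member
    have hlset : ∀ Z : Finset (Fin n), Z.card = l → ∃ B ∈ anti K l, Z ⊆ B := by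
      intro Z hZ
      by_cases h : Z ∈ ∂ K
      · obtain ⟨s, hs, hZs⟩ := exists_subset_of_mem_shadow h
        exact ⟨s, mem_anti.2 (Or.inl hs), hZs⟩
      · exact ⟨Z, mem_anti.2 (Or.inr ⟨hZ, h⟩), Subset.rfl⟩
    -- any `(l+1)`-set contains or is a member
    have hlset' : ∀ Z : Finset (Fin n), Z.card = l + 1 → ∃ B ∈ anti K l, B ⊆ Z := by
      intro Z hZ
      by_cases h : Z ∈ K
      · exact ⟨Z, mem_anti.2 (Or.inl h), Subset.rfl⟩
      · have : ∃ y ∈ Z, Z.erase y ∉ ∂ K := by
          by_contra hcon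
          push Not at hcon
          exact h (hK.2 Z hZ hcon)
        obtain ⟨y, hy, hy'⟩ := this
        refine ⟨Z.erase y, mem_anti.2 (Or.inr ⟨?_, hy'⟩), erase_subset _ _⟩
        rw [card_erase_of_mem hy, hZ]
        rfl
    rcases le_or_gt X.card l with hc | hc
    · obtain ⟨Z, hXZ, -, hZ⟩ := exists_subsuperset_card_eq (subset_univ X) hc
        (by simpa using hl)
      obtain ⟨B, hB, hZB⟩ := hlset Z hZ
      exact key B hB (Or.inl (hXZ.trans hZB))
    · obtain ⟨Z, hZX, hZ⟩ := exists_subset_card_eq (s := X) (n := l + 1) hc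
      obtain ⟨B, hB, hBZ⟩ := hlset' Z hZ
      exact key B hB (Or.inr (hBZ.trans hZX))
  · intro s hs
    rcases mem_anti.1 hs with h | h
    · exact Or.inr (hK.1 s h)
    · exact Or.inl h.1

lemma anti_card (K : Finset (Finset (Fin n))) (hK : Closed l K) :
    (anti K l).card + (∂ K).card = K.card + n.choose l := by
  have hdisj : Disjoint K ((Finset.univ.powersetCard l).filter fun X => X ∉ ∂ K) := by
    rw [Finset.disjoint_left]
    intro X hX hX'
    rw [mem_filter, mem_powersetCard] at hX'
    have := hK.1 X hX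
    omega
  have hsub : ∂ K ⊆ Finset.univ.powersetCard l := fun X hX =>
    mem_powersetCard.2 ⟨subset_univ _, shadow_card hK X hX⟩
  have h1 : ((Finset.univ.powersetCard l).filter fun X => X ∉ ∂ K).card + (∂ K).card
      = n.choose l := by
    have h2 : ((Finset.univ.powersetCard l).filter fun X => X ∉ ∂ K)
        = (Finset.univ.powersetCard l) \ ∂ K := by
      ext X
      simp [mem_sdiff]
    rw [h2, card_sdiff_add_card_eq_card hsub, card_powersetCard, card_univ, Fintype.card_fin]
  rw [anti, card_union_of_disjoint hdisj]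
  omega

lemma exists_flat_of_closed (K : Finset (Finset (Fin n))) (hl : l ≤ n) (hK : Closed l K) :
    ∃ 𝒜 : Finset (Finset (Fin n)), IsFlatMax n l 𝒜 ∧
      𝒜.card + (∂ K).card = K.card + n.choose l :=
  ⟨anti K l, anti_isFlatMax K hl hK, anti_card K hK⟩

end construction

/-- A closed family on a finite type that embeds in `Fin n` gives a flat maximal antichain. -/
theorem exists_flat {n l : ℕ} {V : Type*} [DecidableEq V] (f : V ↪ Fin n) (K : Finset (Finset V))
    (hl1 : 1 ≤ l) (hl : l ≤ n) (hK : Closed l K) :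
    ∃ 𝒜 : Finset (Finset (Fin n)), IsFlatMax n l 𝒜 ∧
      𝒜.card + (∂ K).card = K.card + n.choose l := by
  classical
  let F : Finset V ↪ Finset (Fin n) := (Finset.mapEmbedding f).toEmbedding
  have hF : ∀ X, F X = X.map f := fun X => rfl
  have hsh : ∂ (K.map F) = (∂ K).map F := by
    ext X
    constructor
    · intro hX
      obtain ⟨s, hs, a, ha, rfl⟩ := mem_shadow_iff.1 hX
      obtain ⟨Y, hY, rfl⟩ := mem_map.1 hs
      obtain ⟨b, hb, rfl⟩ := mem_map.1 ha
      refine mem_map.2 ⟨Y.erase b, mem_shadow_iff.2 ⟨Y, hY, b, hb, rfl⟩, ?_⟩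
      rw [hF, hF, map_erase]
    · intro hX
      obtain ⟨Z, hZ, rfl⟩ := mem_map.1 hX
      obtain ⟨Y, hY, b, hb, rfl⟩ := mem_shadow_iff.1 hZ
      refine mem_shadow_iff.2 ⟨F Y, mem_map_of_mem F hY, f b, mem_map_of_mem f hb, ?_⟩
      rw [hF, hF, map_erase]
  have hcl : Closed l (K.map F) := by
    constructor
    · intro Y hY
      obtain ⟨Z, hZ, rfl⟩ := mem_map.1 hY
      rw [hF, card_map, hK.1 Z hZ]
    · intro Y hYc hY
      rw [hsh] at hY
      -- all elements of `Y` are in the range of `f`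
      have hrange : ∀ y ∈ Y, ∃ v, f v = y := by
        intro y hy
        have h2 : 1 < Y.card := by omega
        obtain ⟨z, hz, hzy⟩ := exists_mem_ne h2 y
        obtain ⟨Z, hZ, hZe⟩ := mem_map.1 (hY z hz)
        have : y ∈ Y.erase z := mem_erase.2 ⟨hzy.symm, hy⟩
        rw [← hZe, hF] at this
        obtain ⟨v, _, hv⟩ := mem_map.1 this
        exact ⟨v, hv⟩
      let Y₀ : Finset V := Y.preimage f f.injective.injOn
      have hY₀ : F Y₀ = Y := by
        rw [hF]
        ext y
        simp only [mem_map, Y₀, mem_preimage]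
        constructor
        · rintro ⟨v, hv, rfl⟩
          exact hv
        · intro hy
          obtain ⟨v, rfl⟩ := hrange y hy
          exact ⟨v, hy, rfl⟩
      refine mem_map.2 ⟨Y₀, hK.2 Y₀ ?_ ?_, hY₀⟩
      · rw [← hYc, ← hY₀, hF, card_map]
      · intro v hv
        have hfv : f v ∈ Y := by
          rw [← hY₀, hF]
          exact mem_map_of_mem f hv
        obtain ⟨Z, hZ, hZe⟩ := mem_map.1 (hY (f v) hfv)
        have : F Z = F (Y₀.erase v) := by
          rw [hZe, hF (Y₀.erase v), map_erase, ← hF, hY₀]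
        rw [← F.injective this]
        exact hZ
  obtain ⟨𝒜, h1, h2⟩ := exists_flat_of_closed (K.map F) hl hcl
  rw [hsh, card_map, card_map] at h2
  exact ⟨𝒜, h1, h2⟩

end Pool.Agent.Helper33.Flat
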