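import Mathlib
import Pool.Agent.Helper33.Flat

set_option autoImplicit false

open Finset
open scoped FinsetFamily

namespace Pool.Agent.Helper33.FlatProd

open Pool.Agent.Helper33.Flat

/-- Every member of the family loses membership after deleting a suitable element. -/
def Good {B : Type} [DecidableEq B] (𝒢 : Finset B → Prop) : Prop :=
  ∀ Q, 𝒢 Q → ∃ q ∈ Q, ¬ 𝒢 (Q.erase q)

section product

set_option linter.unusedSectionVars false

variable {B : Type} [Fintype B] [DecidableEq B] {L : ℕ} [NeZero L] {𝒢 : Finset B → Prop}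
  [DecidablePred 𝒢]

/-- The condition on the `l`-sets. -/
def Hs (𝒢 : Finset B → Prop) (X : Finset (ZMod L ⊕ B)) : Prop :=
  X.toLeft.Nonempty ∧ (𝒢 X.toRight ∨ ∑ a ∈ X.toLeft, a = 0)

/-- The `(l+1)`-sets used. -/
def KK (L : ℕ) [NeZero L] (𝒢 : Finset B → Prop) [DecidablePred 𝒢] (l : ℕ) :
    Finset (Finset (ZMod L ⊕ B)) :=
  Finset.univ.filter fun Y => Y.card = l + 1 ∧ 𝒢 Y.toRight ∧ ∑ a ∈ Y.toLeft, a = 0 ∧
    2 ≤ Y.toLeft.card

lemma toLeft_erase_inl (Y : Finset (ZMod L ⊕ B)) (a : ZMod L) :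
    (Y.erase (.inl a)).toLeft = Y.toLeft.erase a := by ext y; simp

lemma toLeft_erase_inr (Y : Finset (ZMod L ⊕ B)) (b : B) :
    (Y.erase (.inr b)).toLeft = Y.toLeft := by ext y; simp

lemma toRight_erase_inl (Y : Finset (ZMod L ⊕ B)) (a : ZMod L) :
    (Y.erase (.inl a)).toRight = Y.toRight := by ext y; simp

lemma toRight_erase_inr (Y : Finset (ZMod L ⊕ B)) (b : B) :
    (Y.erase (.inr b)).toRight = Y.toRight.erase b := by ext y; simp

lemma Hs_of_mem_shadow {l : ℕ} {X : Finset (ZMod L ⊕ B)} (hX : X ∈ ∂ (KK L 𝒢 l)) : Hs 𝒢 X := by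
  obtain ⟨Y, hY, y, hy, rfl⟩ := mem_shadow_iff.1 hX
  obtain ⟨-, hc, h1, h2, h3⟩ := mem_filter.1 hY
  rcases y with a | b
  · refine ⟨?_, Or.inl ?_⟩
    · rw [toLeft_erase_inl, ← card_pos, card_erase_of_mem (mem_toLeft.2 hy)]
      omega
    · rw [toRight_erase_inl]; exact h1
  · refine ⟨?_, Or.inr ?_⟩
    · rw [toLeft_erase_inr, ← card_pos]; omega
    · rw [toLeft_erase_inr]; exact h2

lemma KK_closed (hG : Good 𝒢) (l : ℕ) : Closed l (KK L 𝒢 l) := by
  refine ⟨fun Y hY => (mem_filter.1 hY).2.1, fun Y hc hY => ?_⟩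
  have hH : ∀ y ∈ Y, Hs 𝒢 (Y.erase y) := fun y hy => Hs_of_mem_shadow (hY y hy)
  have hYne : Y.Nonempty := by rw [← card_pos]; omega
  -- the left part is nonempty
  have hZ1 : Y.toLeft.Nonempty := by
    obtain ⟨y, hy⟩ := hYne
    obtain ⟨a, ha⟩ := (hH y hy).1
    exact ⟨a, toLeft_subset_toLeft (erase_subset _ _) ha⟩
  have hZ2 : 2 ≤ Y.toLeft.card := by
    obtain ⟨a, ha⟩ := hZ1
    have := (hH (.inl a) (mem_toLeft.1 ha)).1
    rw [toLeft_erase_inl, ← card_pos, card_erase_of_mem ha] at this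
    omega
  have hGQ : 𝒢 Y.toRight := by
    by_contra hn
    have key : ∀ a ∈ Y.toLeft, a = ∑ x ∈ Y.toLeft, x := by
      intro a ha
      have := (hH (.inl a) (mem_toLeft.1 ha)).2
      rw [toRight_erase_inl, toLeft_erase_inl] at this
      rcases this with h | h
      · exact absurd h hn
      · rw [← add_sum_erase _ _ ha, h, add_zero]
    obtain ⟨a, ha, b, hb, hab⟩ := one_lt_card.1 (lt_of_lt_of_le one_lt_two hZ2)
    exact hab ((key a ha).trans (key b hb).symm)
  obtain ⟨q, hq, hnq⟩ := hG _ hGQ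
  have hsum : ∑ a ∈ Y.toLeft, a = 0 := by
    have := (hH (.inr q) (mem_toRight.1 hq)).2
    rw [toRight_erase_inr, toLeft_erase_inr] at this
    exact this.resolve_left hnq
  exact mem_filter.2 ⟨mem_univ _, hc, hGQ, hsum, hZ2⟩

/-- The covered sets that are counted. -/
def DD (L : ℕ) [NeZero L] (𝒢 : Finset B → Prop) [DecidablePred 𝒢] (l : ℕ) :
    Finset (Finset (ZMod L ⊕ B)) :=
  Finset.univ.filter fun X => X.card = l ∧ 𝒢 X.toRight ∧ X.toLeft.Nonempty ∧
    -(∑ a ∈ X.toLeft, a) ∉ X.toLeft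

lemma DD_subset (l : ℕ) : DD L 𝒢 l ⊆ ∂ (KK L 𝒢 l) := by
  intro X hX
  obtain ⟨-, hc, h1, h2, h3⟩ := mem_filter.1 hX
  have hn : (Sum.inl (-(∑ a ∈ X.toLeft, a)) : ZMod L ⊕ B) ∉ X := fun h => h3 (mem_toLeft.2 h)
  refine mem_shadow_iff_insert_mem.2 ⟨.inl (-(∑ a ∈ X.toLeft, a)), hn, ?_⟩
  refine mem_filter.2 ⟨mem_univ _, ?_, ?_, ?_, ?_⟩
  · rw [card_insert_of_notMem hn, hc]
  · rw [toRight_insert_inl]; exact h1
  · rw [toLeft_insert_inl, sum_insert h3]; ring
  · rw [toLeft_insert_inl, card_insert_of_notMem h3]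
    have := h2.card_pos
    omega

/-- Zero-sum sets of `a` labels. -/
lemma zero_sum_count (a : ℕ) :
    a * ((univ : Finset (ZMod L)).powersetCard a |>.filter fun Z => ∑ x ∈ Z, x = 0).card
      ≤ L.choose (a - 1) := by
  classical
  set S := (univ : Finset (ZMod L)).powersetCard a |>.filter fun Z => ∑ x ∈ Z, x = 0 with hS
  have h1 : (S.sigma fun Z => Z).card = a * S.card := by
    rw [card_sigma, sum_congr rfl (g := fun _ => a), sum_const, smul_eq_mul, mul_comm]
    intro Z hZ
    exact (mem_powersetCard.1 (mem_filter.1 hZ).1).2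
  rw [← h1]
  have h2 : ((univ : Finset (ZMod L)).powersetCard (a - 1)).card = L.choose (a - 1) := by
    rw [card_powersetCard, card_univ, ZMod.card]
  rw [← h2]
  refine card_le_card_of_injOn (fun p => p.1.erase p.2) ?_ ?_
  · rintro ⟨Z, z⟩ hp
    rw [mem_coe, mem_sigma] at hp
    have hZ := (mem_powersetCard.1 (mem_filter.1 hp.1).1).2
    rw [mem_coe, mem_powersetCard]
    refine ⟨subset_univ _, ?_⟩
    rw [card_erase_of_mem hp.2, hZ]
  · rintro ⟨Z, z⟩ hp ⟨Z', z'⟩ hp' h
    rw [mem_coe, mem_sigma] at hp hp'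
    simp only at h hp hp'
    have e1 : z + ∑ x ∈ Z.erase z, x = 0 :=
      (add_sum_erase Z (fun x => x) hp.2).trans (mem_filter.1 hp.1).2
    have e2 : z' + ∑ x ∈ Z'.erase z', x = 0 :=
      (add_sum_erase Z' (fun x => x) hp'.2).trans (mem_filter.1 hp'.1).2
    rw [← h] at e2
    have hz : z = z' := add_right_cancel (e1.trans e2.symm)
    subst hz
    have hZ : Z = Z' := by
      rw [← insert_erase hp.2, h, insert_erase hp'.2]
    subst hZ
    rfl

/-- Counting the `(l+1)`-sets. -/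
lemma card_KK (l : ℕ) :
    (L + 1) * (KK L 𝒢 l).card ≤ (L + 1 + Fintype.card B).choose (l + 1) := by
  classical
  -- split by the number of labels
  set S : ℕ → Finset (Finset (ZMod L)) := fun a =>
    ((univ : Finset (ZMod L)).powersetCard a).filter fun Z => ∑ x ∈ Z, x = 0 ∧ Z.Nonempty with hS
  have h1 : (KK L 𝒢 l).card ≤ ∑ p ∈ antidiagonal (l + 1),
      (S p.1).card * ((Fintype.card B).choose p.2) := by
    have h2 : (KK L 𝒢 l).card ≤ ((antidiagonal (l + 1)).sigma fun p =>
        (S p.1) ×ˢ ((univ : Finset B).powersetCard p.2)).card := by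
      refine card_le_card_of_injOn
        (fun Y => ⟨(Y.toLeft.card, Y.toRight.card), (Y.toLeft, Y.toRight)⟩) ?_ ?_
      · intro Y hY
        obtain ⟨-, hc, h1, h2, h3⟩ := mem_filter.1 (mem_coe.1 hY)
        rw [mem_coe, mem_sigma]
        refine ⟨mem_antidiagonal.2 ?_, mem_product.2 ⟨?_, ?_⟩⟩
        · rw [card_toLeft_add_card_toRight, hc]
        · exact mem_filter.2 ⟨mem_powersetCard.2 ⟨subset_univ _, rfl⟩, h2,
            card_pos.1 (lt_of_lt_of_le zero_lt_two h3)⟩
        · exact mem_powersetCard.2 ⟨subset_univ _, rfl⟩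
      · intro Y _ Y' _ h
        simp only [Sigma.mk.injEq, Prod.mk.injEq, heq_eq_eq] at h
        rw [← toLeft_disjSum_toRight (u := Y), ← toLeft_disjSum_toRight (u := Y'), h.2.1, h.2.2]
    refine h2.trans (le_of_eq ?_)
    rw [card_sigma]
    refine sum_congr rfl fun p _ => ?_
    rw [card_product, card_powersetCard, card_univ]
  have h3 : ∀ a, (L + 1) * (S a).card ≤ (L + 1).choose a := by
    intro a
    rcases Nat.eq_zero_or_pos a with rfl | ha
    · have : S 0 = ∅ := by
        rw [hS]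
        simp only [powersetCard_zero]
        rw [filter_eq_empty_iff]
        intro Z hZ
        rw [mem_singleton] at hZ
        subst hZ
        simp
      rw [this]
      simp
    · have h4 : a * (S a).card ≤ L.choose (a - 1) := by
        refine le_trans (Nat.mul_le_mul_left _ (card_le_card ?_)) (zero_sum_count (L := L) a)
        intro Z hZ
        rw [mem_filter] at hZ ⊢
        exact ⟨hZ.1, hZ.2.1⟩
      obtain ⟨b, rfl⟩ := Nat.exists_eq_succ_of_ne_zero ha.ne'
      have h5 := Nat.add_one_mul_choose_eq L b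
      simp only [Nat.succ_eq_add_one, Nat.add_sub_cancel] at h4 ⊢
      refine Nat.le_of_mul_le_mul_left ?_ (Nat.succ_pos b)
      calc (b + 1) * ((L + 1) * (S (b + 1)).card) = (L + 1) * ((b + 1) * (S (b + 1)).card) := by ring
        _ ≤ (L + 1) * L.choose b := Nat.mul_le_mul_left _ h4
        _ = (b + 1) * (L + 1).choose (b + 1) := by rw [h5]; ring
  calc (L + 1) * (KK L 𝒢 l).card
      ≤ (L + 1) * ∑ p ∈ antidiagonal (l + 1), (S p.1).card * ((Fintype.card B).choose p.2) :=
        Nat.mul_le_mul_left _ h1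
    _ = ∑ p ∈ antidiagonal (l + 1), ((L + 1) * (S p.1).card) * ((Fintype.card B).choose p.2) := by
        rw [mul_sum]; exact sum_congr rfl fun p _ => by ring
    _ ≤ ∑ p ∈ antidiagonal (l + 1), (L + 1).choose p.1 * ((Fintype.card B).choose p.2) :=
        sum_le_sum fun p _ => Nat.mul_le_mul_right _ (h3 p.1)
    _ = (L + 1 + Fintype.card B).choose (l + 1) := (Nat.add_choose_eq _ _ _).symm

/-- Number of pairs (set of `l - |Q|` points outside, `Q` bad), where there are `u` points outside. -/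
def badN (u : ℕ) (𝒢 : Finset B → Prop) [DecidablePred 𝒢] (l : ℕ) : ℕ :=
  ∑ Q ∈ univ.filter (fun Q : Finset B => ¬ 𝒢 Q), if Q.card ≤ l then u.choose (l - Q.card) else 0

lemma card_bad (l : ℕ) : (univ.filter fun X : Finset (ZMod L ⊕ B) => X.card = l ∧
    ¬ 𝒢 X.toRight).card ≤ badN L 𝒢 l := by
  classical
  have h1 : (univ.filter fun X : Finset (ZMod L ⊕ B) => X.card = l ∧ ¬ 𝒢 X.toRight).card ≤
      ((univ.filter (fun Q : Finset B => ¬ 𝒢 Q)).sigma fun Q =>
        if Q.card ≤ l then (univ : Finset (ZMod L)).powersetCard (l - Q.card) else ∅).card := by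
    refine card_le_card_of_injOn (fun X => ⟨X.toRight, X.toLeft⟩) ?_ ?_
    · intro X hX
      obtain ⟨-, hc, hn⟩ := mem_filter.1 (mem_coe.1 hX)
      have h2 := card_toLeft_add_card_toRight (u := X)
      rw [mem_coe, mem_sigma]
      refine ⟨mem_filter.2 ⟨mem_univ _, hn⟩, ?_⟩
      rw [if_pos (show X.toRight.card ≤ l by omega)]
      exact mem_powersetCard.2 ⟨subset_univ _, by simp only; omega⟩
    · intro X _ X' _ h
      simp only [Sigma.mk.injEq, heq_eq_eq] at h
      rw [← toLeft_disjSum_toRight (u := X), ← toLeft_disjSum_toRight (u := X'), h.1, h.2]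
  refine h1.trans (le_of_eq ?_)
  rw [card_sigma, badN]
  refine sum_congr rfl fun Q _ => ?_
  split_ifs
  · rw [card_powersetCard, card_univ, ZMod.card]
  · rw [card_empty]

/-- Doubling is injective modulo an odd number. -/
lemma double_inj (hL : Odd L) {x y : ZMod L} (h : x + x = y + y) : x = y := by
  have h2 : IsUnit (2 : ZMod L) := by
    have : IsUnit ((2 : ℕ) : ZMod L) := (ZMod.isUnit_iff_coprime 2 L).2 (Nat.coprime_two_left.2 hL)
    simpa using this
  have h3 : (2 : ZMod L) * x = 2 * y := by rw [two_mul, two_mul]; exact h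
  exact h2.mul_left_cancel h3

lemma card_DD (hL : Odd L) (l : ℕ) :
    (L + Fintype.card B).choose l ≤ (DD L 𝒢 l).card + badN L 𝒢 l + (Fintype.card B).choose l +
      (L + Fintype.card B).choose (l - 1) := by
  classical
  set B2 : Finset (Finset (ZMod L ⊕ B)) := univ.filter fun X => X.card = l ∧ X.toLeft = ∅ with hB2
  set B3 : Finset (Finset (ZMod L ⊕ B)) := univ.filter fun X => X.card = l ∧
    -(∑ a ∈ X.toLeft, a) ∈ X.toLeft with hB3
  have hV : Fintype.card (ZMod L ⊕ B) = L + Fintype.card B := by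
    rw [Fintype.card_sum, ZMod.card]
  have h0 : (univ.powersetCard l : Finset (Finset (ZMod L ⊕ B))) ⊆
      DD L 𝒢 l ∪ (univ.filter fun X : Finset (ZMod L ⊕ B) => X.card = l ∧ ¬ 𝒢 X.toRight) ∪ B2 ∪
        B3 := by
    intro X hX
    have hc := (mem_powersetCard.1 hX).2
    simp only [mem_union]
    by_cases g1 : 𝒢 X.toRight
    · by_cases g2 : X.toLeft = ∅
      · exact Or.inl (Or.inr (mem_filter.2 ⟨mem_univ _, hc, g2⟩))
      · by_cases g3 : -(∑ a ∈ X.toLeft, a) ∈ X.toLeft
        · exact Or.inr (mem_filter.2 ⟨mem_univ _, hc, g3⟩)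
        · exact Or.inl (Or.inl (Or.inl (mem_filter.2 ⟨mem_univ _, hc, g1,
            nonempty_iff_ne_empty.2 g2, g3⟩)))
    · exact Or.inl (Or.inl (Or.inr (mem_filter.2 ⟨mem_univ _, hc, g1⟩)))
  have h1 : B2.card ≤ (Fintype.card B).choose l := by
    rw [← card_univ, ← card_powersetCard]
    refine card_le_card_of_injOn (fun X => X.toRight) ?_ ?_
    · intro X hX
      obtain ⟨-, hc, he⟩ := mem_filter.1 (mem_coe.1 hX)
      have h2 := card_toLeft_add_card_toRight (u := X)
      rw [he, card_empty, zero_add] at h2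
      exact mem_powersetCard.2 ⟨subset_univ _, by simp only; omega⟩
    · intro X hX X' hX' h
      obtain ⟨-, -, he⟩ := mem_filter.1 (mem_coe.1 hX)
      obtain ⟨-, -, he'⟩ := mem_filter.1 (mem_coe.1 hX')
      simp only at h
      rw [← toLeft_disjSum_toRight (u := X), ← toLeft_disjSum_toRight (u := X'), he, he', h]
  have h2 : B3.card ≤ (L + Fintype.card B).choose (l - 1) := by
    rw [← hV, ← card_univ, ← card_powersetCard]
    refine card_le_card_of_injOn (fun X => X.erase (.inl (-(∑ a ∈ X.toLeft, a)))) ?_ ?_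
    · intro X hX
      obtain ⟨-, hc, he⟩ := mem_filter.1 (mem_coe.1 hX)
      rw [mem_coe, mem_powersetCard]
      refine ⟨subset_univ _, ?_⟩
      rw [card_erase_of_mem (mem_toLeft.1 he), hc]
    · intro X hX X' hX' h
      obtain ⟨-, -, he⟩ := mem_filter.1 (mem_coe.1 hX)
      obtain ⟨-, -, he'⟩ := mem_filter.1 (mem_coe.1 hX')
      simp only at h
      have hl : X.toLeft.erase (-(∑ a ∈ X.toLeft, a)) = X'.toLeft.erase (-(∑ a ∈ X'.toLeft, a)) := by
        have := congrArg toLeft h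
        rwa [toLeft_erase_inl, toLeft_erase_inl] at this
      have hr : X.toRight = X'.toRight := by
        have := congrArg toRight h
        rwa [toRight_erase_inl, toRight_erase_inl] at this
      set z := -(∑ a ∈ X.toLeft, a) with hz
      set z' := -(∑ a ∈ X'.toLeft, a) with hz'
      have e1 : z + ∑ x ∈ X.toLeft.erase z, x = -z := by
        rw [hz, neg_neg, ← hz]
        exact add_sum_erase X.toLeft (fun x => x) he
      have e2 : z' + ∑ x ∈ X'.toLeft.erase z', x = -z' := by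
        rw [hz', neg_neg, ← hz']
        exact add_sum_erase X'.toLeft (fun x => x) he'
      rw [← hl] at e2
      have e3 : z + z = z' + z' := by linear_combination e1 - e2
      have e4 : z = z' := double_inj hL e3
      have e5 : X.toLeft = X'.toLeft := by
        rw [← insert_erase he, ← insert_erase he', ← e4, hl, e4]
      rw [← toLeft_disjSum_toRight (u := X), ← toLeft_disjSum_toRight (u := X'), e5, hr]
  have h3 : (L + Fintype.card B).choose l ≤ (DD L 𝒢 l ∪ (univ.filter fun X : Finset (ZMod L ⊕ B) =>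
      X.card = l ∧ ¬ 𝒢 X.toRight) ∪ B2 ∪ B3).card := by
    rw [← hV, ← card_univ, ← card_powersetCard]
    exact card_le_card h0
  have h4 := card_bad (L := L) (𝒢 := 𝒢) l
  have h5 := card_union_le (DD L 𝒢 l ∪ (univ.filter fun X : Finset (ZMod L ⊕ B) =>
      X.card = l ∧ ¬ 𝒢 X.toRight) ∪ B2) B3
  have h6 := card_union_le (DD L 𝒢 l ∪ (univ.filter fun X : Finset (ZMod L ⊕ B) =>
      X.card = l ∧ ¬ 𝒢 X.toRight)) B2
  have h7 := card_union_le (DD L 𝒢 l) (univ.filter fun X : Finset (ZMod L ⊕ B) =>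
      X.card = l ∧ ¬ 𝒢 X.toRight)
  omega

/-- The product construction: a flat maximal antichain from a good family. -/
theorem exists_flat_prod {n l : ℕ} (hL : Odd L) (hG : Good 𝒢) (hl : 1 ≤ l)
    (hn : L + Fintype.card B ≤ n) (hln : l ≤ n) :
    ∃ 𝒜 : Finset (Finset (Fin n)), IsFlatMax n l 𝒜 ∧
      (L + 1) * (𝒜.card + (L + Fintype.card B).choose l) ≤
        (L + 1 + Fintype.card B).choose (l + 1) + (L + 1) * (n.choose l + badN L 𝒢 l +
          (Fintype.card B).choose l + (L + Fintype.card B).choose (l - 1)) := by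
  have hcard : Fintype.card (ZMod L ⊕ B) ≤ Fintype.card (Fin n) := by
    rw [Fintype.card_sum, ZMod.card, Fintype.card_fin]
    exact hn
  obtain ⟨f⟩ := Function.Embedding.nonempty_of_card_le hcard
  obtain ⟨𝒜, h1, h2⟩ := exists_flat f (KK L 𝒢 l) hl hln (KK_closed hG l)
  refine ⟨𝒜, h1, ?_⟩
  have h3 := card_le_card (DD_subset (L := L) (𝒢 := 𝒢) l)
  have h4 := card_KK (L := L) (𝒢 := 𝒢) l
  have h5 := card_DD (𝒢 := 𝒢) hL l
  have h6 : 𝒜.card + (L + Fintype.card B).choose l ≤ (KK L 𝒢 l).card + (n.choose l + badN L 𝒢 l +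
          (Fintype.card B).choose l + (L + Fintype.card B).choose (l - 1)) := by omega
  calc (L + 1) * (𝒜.card + (L + Fintype.card B).choose l)
      ≤ (L + 1) * ((KK L 𝒢 l).card + (n.choose l + badN L 𝒢 l +
          (Fintype.card B).choose l + (L + Fintype.card B).choose (l - 1))) :=
        Nat.mul_le_mul_left _ h6
    _ = (L + 1) * (KK L 𝒢 l).card + (L + 1) * (n.choose l + badN L 𝒢 l +
          (Fintype.card B).choose l + (L + Fintype.card B).choose (l - 1)) := by ring
    _ ≤ _ := Nat.add_le_add_right h4 _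

end product

end Pool.Agent.Helper33.FlatProd
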