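import Mathlib
import Pool.Agent.Helper33.Flat

set_option autoImplicit false

open Finset
open scoped FinsetFamily

namespace Pool.Agent.Helper33.FlatThree

open Pool.Agent.Helper33.Flat

variable {N : ℕ}

/-- number of vertices of colour `i` -/
def cnt (i : Fin 3) (X : Finset (Fin 3 × ZMod N)) : ℕ := (X.filter fun v => v.1 = i).card

/-- sum of the labels of the vertices of colour `i` -/
def sm (i : Fin 3) (X : Finset (Fin 3 × ZMod N)) : ZMod N := ∑ v ∈ X.filter (fun v => v.1 = i), v.2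

lemma cnt_erase (i : Fin 3) {X : Finset (Fin 3 × ZMod N)} {v : Fin 3 × ZMod N} (hv : v ∈ X) :
    cnt i X = cnt i (X.erase v) + if v.1 = i then 1 else 0 := by
  unfold cnt
  by_cases h : v.1 = i
  · rw [if_pos h, filter_erase, card_erase_of_mem (mem_filter.2 ⟨hv, h⟩)]
    have : 0 < (X.filter fun v => v.1 = i).card := card_pos.2 ⟨v, mem_filter.2 ⟨hv, h⟩⟩
    omega
  · rw [if_neg h, filter_erase, erase_eq_of_notMem]
    · rfl
    · simp [h]

lemma sm_erase (i : Fin 3) {X : Finset (Fin 3 × ZMod N)} {v : Fin 3 × ZMod N} (hv : v ∈ X) :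
    sm i X = sm i (X.erase v) + if v.1 = i then v.2 else 0 := by
  unfold sm
  by_cases h : v.1 = i
  · rw [if_pos h, filter_erase, sum_erase_add _ _ (mem_filter.2 ⟨hv, h⟩)]
  · rw [if_neg h, filter_erase, erase_eq_of_notMem, add_zero]
    simp [h]

lemma cnt_sum (X : Finset (Fin 3 × ZMod N)) : cnt 0 X + cnt 1 X + cnt 2 X = X.card := by
  have := Finset.card_eq_sum_card_fiberwise (f := fun v : Fin 3 × ZMod N => v.1) (s := X)
    (t := Finset.univ) (by intro x _; simp)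
  rw [this, Fin.sum_univ_three]
  rfl

/-- The main triples: types `001, 112, 220, 012`. -/
def G (X : Finset (Fin 3 × ZMod N)) : Prop :=
  (cnt 0 X = 2 ∧ cnt 1 X = 1 ∧ cnt 2 X = 0) ∨ (cnt 0 X = 0 ∧ cnt 1 X = 2 ∧ cnt 2 X = 1) ∨
  (cnt 0 X = 1 ∧ cnt 1 X = 0 ∧ cnt 2 X = 2) ∨ (cnt 0 X = 1 ∧ cnt 1 X = 1 ∧ cnt 2 X = 1)

instance (X : Finset (Fin 3 × ZMod N)) : Decidable (G X) := by unfold G; infer_instance

/-- The special triples. -/
def Sp (X : Finset (Fin 3 × ZMod N)) : Prop :=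
  (cnt 0 X = 0 ∧ cnt 1 X = 3 ∧ cnt 2 X = 0 ∧ sm 1 X = 0) ∨
  (cnt 0 X = 0 ∧ cnt 1 X = 0 ∧ cnt 2 X = 3 ∧ sm 2 X = 0) ∨
  (cnt 0 X = 2 ∧ cnt 1 X = 0 ∧ cnt 2 X = 1 ∧ sm 0 X = sm 2 X)

/-- The four-element members. -/
def KP (Y : Finset (Fin 3 × ZMod N)) : Prop :=
  (cnt 0 Y = 0 ∧ cnt 1 Y = 3 ∧ cnt 2 Y = 1 ∧ sm 1 Y = 0) ∨
  (cnt 0 Y = 1 ∧ cnt 1 Y = 0 ∧ cnt 2 Y = 3 ∧ sm 2 Y = 0) ∨
  (cnt 0 Y = 2 ∧ cnt 1 Y = 1 ∧ cnt 2 Y = 1 ∧ sm 0 Y = sm 2 Y)

instance (Y : Finset (Fin 3 × ZMod N)) : Decidable (KP Y) := by unfold KP; infer_instance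

lemma fin3 (i : Fin 3) : i = 0 ∨ i = 1 ∨ i = 2 := by fin_cases i <;> simp

lemma KP_erase {Y : Finset (Fin 3 × ZMod N)} (hY : KP Y) {v : Fin 3 × ZMod N} (hv : v ∈ Y) :
    G (Y.erase v) ∨ Sp (Y.erase v) := by
  have e0 := cnt_erase 0 hv
  have e1 := cnt_erase 1 hv
  have e2 := cnt_erase 2 hv
  have s0 := sm_erase 0 hv
  have s1 := sm_erase 1 hv
  have s2 := sm_erase 2 hv
  unfold G Sp
  rcases fin3 v.1 with h | h | h <;> simp only [h] at e0 e1 e2 s0 s1 s2 <;> simp at e0 e1 e2 s0 s1 s2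
  · rcases hY with ⟨a, b, c, d⟩ | ⟨a, b, c, d⟩ | ⟨a, b, c, d⟩
    · omega
    · right; right; left
      rw [← s2]
      exact ⟨by omega, by omega, by omega, d⟩
    · left; right; right; right
      omega
  · rcases hY with ⟨a, b, c, d⟩ | ⟨a, b, c, d⟩ | ⟨a, b, c, d⟩
    · left; right; left
      omega
    · omega
    · right; right; right
      rw [← s0, ← s2]
      exact ⟨by omega, by omega, by omega, d⟩
  · rcases hY with ⟨a, b, c, d⟩ | ⟨a, b, c, d⟩ | ⟨a, b, c, d⟩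
    · right; left
      rw [← s1]
      exact ⟨by omega, by omega, by omega, d⟩
    · left; right; right; left
      omega
    · left; left
      omega

lemma two_of_cnt {i : Fin 3} {Y : Finset (Fin 3 × ZMod N)} (h : 2 ≤ cnt i Y) :
    ∃ x ∈ Y, ∃ y ∈ Y, x.1 = i ∧ y.1 = i ∧ x.2 ≠ y.2 := by
  obtain ⟨x, hx, y, hy, hxy⟩ := Finset.one_lt_card.1 (lt_of_lt_of_le one_lt_two h)
  rw [mem_filter] at hx hy
  refine ⟨x, hx.1, y, hy.1, hx.2, hy.2, ?_⟩
  intro h2
  exact hxy (Prod.ext (hx.2.trans hy.2.symm) h2)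

lemma one_of_cnt {i : Fin 3} {Y : Finset (Fin 3 × ZMod N)} (h : 1 ≤ cnt i Y) :
    ∃ x ∈ Y, x.1 = i := by
  obtain ⟨x, hx⟩ := Finset.card_pos.1 h
  rw [mem_filter] at hx
  exact ⟨x, hx.1, hx.2⟩

/-- A number-valued code of the type, to keep case distinctions small. -/
lemma types_zero {Y : Finset (Fin 3 × ZMod N)} {v : Fin 3 × ZMod N} (hv : v ∈ Y) (h : v.1 = 0)
    (hY : G (Y.erase v) ∨ Sp (Y.erase v)) :
    (cnt 0 Y = 3 ∧ cnt 1 Y = 1 ∧ cnt 2 Y = 0) ∨ (cnt 0 Y = 1 ∧ cnt 1 Y = 2 ∧ cnt 2 Y = 1) ∨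
    (cnt 0 Y = 2 ∧ cnt 1 Y = 0 ∧ cnt 2 Y = 2) ∨ (cnt 0 Y = 2 ∧ cnt 1 Y = 1 ∧ cnt 2 Y = 1) ∨
    (cnt 0 Y = 1 ∧ cnt 1 Y = 3 ∧ cnt 2 Y = 0) ∨
    ((cnt 0 Y = 1 ∧ cnt 1 Y = 0 ∧ cnt 2 Y = 3) ∧ sm 2 Y = 0) ∨
    (cnt 0 Y = 3 ∧ cnt 1 Y = 0 ∧ cnt 2 Y = 1) := by
  have e0 := cnt_erase 0 hv
  have e1 := cnt_erase 1 hv
  have e2 := cnt_erase 2 hv
  have s2 := sm_erase 2 hv
  simp only [h] at e0 e1 e2 s2
  simp at e0 e1 e2 s2
  rcases hY with (h' | h' | h' | h') | (h' | h' | h')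
  · left; omega
  · right; left; omega
  · right; right; left; omega
  · right; right; right; left; omega
  · obtain ⟨a, b, c, _⟩ := h'
    right; right; right; right; left; omega
  · obtain ⟨a, b, c, d⟩ := h'
    right; right; right; right; right; left
    exact ⟨by omega, by rw [s2]; exact d⟩
  · obtain ⟨a, b, c, _⟩ := h'
    right; right; right; right; right; right; omega

lemma types_one {Y : Finset (Fin 3 × ZMod N)} {v : Fin 3 × ZMod N} (hv : v ∈ Y) (h : v.1 = 1)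
    (hY : G (Y.erase v) ∨ Sp (Y.erase v)) :
    (cnt 0 Y = 2 ∧ cnt 1 Y = 2 ∧ cnt 2 Y = 0) ∨ (cnt 0 Y = 0 ∧ cnt 1 Y = 3 ∧ cnt 2 Y = 1) ∨
    (cnt 0 Y = 1 ∧ cnt 1 Y = 1 ∧ cnt 2 Y = 2) ∨ (cnt 0 Y = 1 ∧ cnt 1 Y = 2 ∧ cnt 2 Y = 1) ∨
    ((cnt 0 Y = 0 ∧ cnt 1 Y = 4 ∧ cnt 2 Y = 0) ∧ sm 1 Y = v.2) ∨
    (cnt 0 Y = 0 ∧ cnt 1 Y = 1 ∧ cnt 2 Y = 3) ∨
    ((cnt 0 Y = 2 ∧ cnt 1 Y = 1 ∧ cnt 2 Y = 1) ∧ sm 0 Y = sm 2 Y) := by
  have e0 := cnt_erase 0 hv
  have e1 := cnt_erase 1 hv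
  have e2 := cnt_erase 2 hv
  have s0 := sm_erase 0 hv
  have s1 := sm_erase 1 hv
  have s2 := sm_erase 2 hv
  simp only [h] at e0 e1 e2 s0 s1 s2
  simp at e0 e1 e2 s0 s1 s2
  rcases hY with (h' | h' | h' | h') | (h' | h' | h')
  · left; omega
  · right; left; omega
  · right; right; left; omega
  · right; right; right; left; omega
  · obtain ⟨a, b, c, d⟩ := h'
    right; right; right; right; left
    exact ⟨by omega, by rw [s1, d, zero_add]⟩
  · obtain ⟨a, b, c, _⟩ := h'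
    right; right; right; right; right; left; omega
  · obtain ⟨a, b, c, d⟩ := h'
    right; right; right; right; right; right
    exact ⟨by omega, by rw [s0, s2]; exact d⟩

lemma types_two {Y : Finset (Fin 3 × ZMod N)} {v : Fin 3 × ZMod N} (hv : v ∈ Y) (h : v.1 = 2)
    (hY : G (Y.erase v) ∨ Sp (Y.erase v)) :
    (cnt 0 Y = 2 ∧ cnt 1 Y = 1 ∧ cnt 2 Y = 1) ∨ (cnt 0 Y = 0 ∧ cnt 1 Y = 2 ∧ cnt 2 Y = 2) ∨
    (cnt 0 Y = 1 ∧ cnt 1 Y = 0 ∧ cnt 2 Y = 3) ∨ (cnt 0 Y = 1 ∧ cnt 1 Y = 1 ∧ cnt 2 Y = 2) ∨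
    ((cnt 0 Y = 0 ∧ cnt 1 Y = 3 ∧ cnt 2 Y = 1) ∧ sm 1 Y = 0) ∨
    ((cnt 0 Y = 0 ∧ cnt 1 Y = 0 ∧ cnt 2 Y = 4) ∧ sm 2 Y = v.2) ∨
    ((cnt 0 Y = 2 ∧ cnt 1 Y = 0 ∧ cnt 2 Y = 2) ∧ sm 2 Y = sm 0 Y + v.2) := by
  have e0 := cnt_erase 0 hv
  have e1 := cnt_erase 1 hv
  have e2 := cnt_erase 2 hv
  have s0 := sm_erase 0 hv
  have s1 := sm_erase 1 hv
  have s2 := sm_erase 2 hv
  simp only [h] at e0 e1 e2 s0 s1 s2
  simp at e0 e1 e2 s0 s1 s2
  rcases hY with (h' | h' | h' | h') | (h' | h' | h')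
  · left; omega
  · right; left; omega
  · right; right; left; omega
  · right; right; right; left; omega
  · obtain ⟨a, b, c, d⟩ := h'
    right; right; right; right; left
    exact ⟨by omega, by rw [s1]; exact d⟩
  · obtain ⟨a, b, c, d⟩ := h'
    right; right; right; right; right; left
    exact ⟨by omega, by rw [s2, d, zero_add]⟩
  · obtain ⟨a, b, c, d⟩ := h'
    right; right; right; right; right; right
    exact ⟨by omega, by rw [s2, s0, d]⟩

lemma KP_of_erase {Y : Finset (Fin 3 × ZMod N)} (hc : Y.card = 4)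
    (hY : ∀ v ∈ Y, G (Y.erase v) ∨ Sp (Y.erase v)) : KP Y := by
  have hsum := cnt_sum Y
  have h0 := fun (v : Fin 3 × ZMod N) (hv : v ∈ Y) (h : v.1 = 0) => types_zero hv h (hY v hv)
  have h1 := fun (v : Fin 3 × ZMod N) (hv : v ∈ Y) (h : v.1 = 1) => types_one hv h (hY v hv)
  have h2 := fun (v : Fin 3 × ZMod N) (hv : v ∈ Y) (h : v.1 = 2) => types_two hv h (hY v hv)
  unfold KP
  by_cases c0 : 1 ≤ cnt 0 Y
  · obtain ⟨v, hv, hv'⟩ := one_of_cnt c0
    rcases h0 v hv hv' with h | h | h | h | h | h | h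
    · obtain ⟨w, hw, hw'⟩ := one_of_cnt (i := 1) (Y := Y) (by omega)
      rcases h1 w hw hw' with g | g | g | g | ⟨g, _⟩ | g | ⟨g, _⟩ <;> omega
    · obtain ⟨w, hw, hw'⟩ := one_of_cnt (i := 2) (Y := Y) (by omega)
      rcases h2 w hw hw' with g | g | g | g | ⟨g, _⟩ | ⟨g, _⟩ | ⟨g, _⟩ <;> omega
    · obtain ⟨w, hw, w', hw', a, b, c⟩ := two_of_cnt (i := 2) (Y := Y) (by omega)
      rcases h2 w hw a with g | g | g | g | ⟨g, _⟩ | ⟨g, _⟩ | ⟨g, e1⟩ <;> try omega
      rcases h2 w' hw' b with g | g | g | g | ⟨g, _⟩ | ⟨g, _⟩ | ⟨g, e2⟩ <;> try omega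
      exact absurd (add_left_cancel (e1.symm.trans e2)) c
    · obtain ⟨w, hw, hw'⟩ := one_of_cnt (i := 1) (Y := Y) (by omega)
      rcases h1 w hw hw' with g | g | g | g | ⟨g, _⟩ | g | ⟨g, e⟩ <;> try omega
      right; right
      exact ⟨g.1, g.2.1, g.2.2, e⟩
    · obtain ⟨w, hw, hw'⟩ := one_of_cnt (i := 1) (Y := Y) (by omega)
      rcases h1 w hw hw' with g | g | g | g | ⟨g, _⟩ | g | ⟨g, _⟩ <;> omega
    · right; left
      exact ⟨h.1.1, h.1.2.1, h.1.2.2, h.2⟩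
    · obtain ⟨w, hw, hw'⟩ := one_of_cnt (i := 2) (Y := Y) (by omega)
      rcases h2 w hw hw' with g | g | g | g | ⟨g, _⟩ | ⟨g, _⟩ | ⟨g, _⟩ <;> omega
  · by_cases c1 : 1 ≤ cnt 1 Y
    · by_cases c2 : 1 ≤ cnt 2 Y
      · obtain ⟨v, hv, hv'⟩ := one_of_cnt c1
        obtain ⟨w, hw, hw'⟩ := one_of_cnt c2
        rcases h2 w hw hw' with g | g | g | g | ⟨g, e⟩ | ⟨g, _⟩ | ⟨g, _⟩ <;> try omega
        · rcases h1 v hv hv' with g | g | g | g | ⟨g, _⟩ | g | ⟨g, _⟩ <;> omega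
        · left
          exact ⟨g.1, g.2.1, g.2.2, e⟩
      · obtain ⟨w, hw, w', hw', a, b, c⟩ := two_of_cnt (i := 1) (Y := Y) (by omega)
        rcases h1 w hw a with g | g | g | g | ⟨g, e1⟩ | g | ⟨g, _⟩ <;> try omega
        rcases h1 w' hw' b with g | g | g | g | ⟨g, e2⟩ | g | ⟨g, _⟩ <;> try omega
        exact absurd (e1.symm.trans e2) c
    · obtain ⟨w, hw, w', hw', a, b, c⟩ := two_of_cnt (i := 2) (Y := Y) (by omega)
      rcases h2 w hw a with g | g | g | g | ⟨g, _⟩ | ⟨g, e1⟩ | ⟨g, _⟩ <;> try omega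
      rcases h2 w' hw' b with g | g | g | g | ⟨g, _⟩ | ⟨g, e2⟩ | ⟨g, _⟩ <;> try omega
      exact absurd (e1.symm.trans e2) c

section counting

set_option linter.unusedSectionVars false

variable [NeZero N]

/-- The family of four-element sets. -/
def K (N : ℕ) [NeZero N] : Finset (Finset (Fin 3 × ZMod N)) :=
  Finset.univ.filter KP

lemma mem_K {Y : Finset (Fin 3 × ZMod N)} : Y ∈ K N ↔ KP Y := by simp [K]

lemma KP_card {Y : Finset (Fin 3 × ZMod N)} (h : KP Y) : Y.card = 4 := by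
  rw [← cnt_sum]
  rcases h with ⟨a, b, c, _⟩ | ⟨a, b, c, _⟩ | ⟨a, b, c, _⟩ <;> omega

lemma K_closed : Closed 3 (K N) := by
  refine ⟨fun Y hY => KP_card (mem_K.1 hY), fun Y hc hY => mem_K.2 (KP_of_erase hc ?_)⟩
  intro v hv
  obtain ⟨s, hs, a, ha, he⟩ := mem_shadow_iff.1 (hY v hv)
  rw [← he]
  exact KP_erase (mem_K.1 hs) ha

/-- Covered main triples. -/
def D (N : ℕ) [NeZero N] : Finset (Finset (Fin 3 × ZMod N)) := (∂ (K N)).filter G

lemma cnt_insert (i : Fin 3) {X : Finset (Fin 3 × ZMod N)} {v : Fin 3 × ZMod N} (hv : v ∉ X) :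
    cnt i (insert v X) = cnt i X + if v.1 = i then 1 else 0 := by
  have := cnt_erase i (mem_insert_self v X)
  rwa [erase_insert hv] at this

lemma sm_insert (i : Fin 3) {X : Finset (Fin 3 × ZMod N)} {v : Fin 3 × ZMod N} (hv : v ∉ X) :
    sm i (insert v X) = sm i X + if v.1 = i then v.2 else 0 := by
  have := sm_erase i (mem_insert_self v X)
  rwa [erase_insert hv] at this

/-- A main triple determines the vertex that completes it. -/
lemma complete_unique {X : Finset (Fin 3 × ZMod N)} (hX : G X) {v w : Fin 3 × ZMod N}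
    (hv : v ∉ X) (hw : w ∉ X) (h1 : KP (insert v X)) (h2 : KP (insert w X)) : v = w := by
  obtain ⟨i, x⟩ := v
  obtain ⟨j, y⟩ := w
  unfold KP at h1 h2
  simp only [cnt_insert _ hv, cnt_insert _ hw, sm_insert _ hv, sm_insert _ hw] at h1 h2
  unfold G at hX
  rcases fin3 i with rfl | rfl | rfl <;> rcases fin3 j with rfl | rfl | rfl <;>
    simp at h1 h2 ⊢ <;>
    rcases hX with ⟨a, b, c⟩ | ⟨a, b, c⟩ | ⟨a, b, c⟩ | ⟨a, b, c⟩ <;>
    simp [a, b, c] at h1 h2 <;>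
    first
      | exact add_right_cancel (h1.trans h2.symm)
      | exact add_left_cancel (h1.trans h2.symm)
      | exact add_left_cancel (h1.symm.trans h2)

lemma three_le {Y : Finset (Fin 3 × ZMod N)} (hY : KP Y) :
    3 ≤ (Y.filter fun v => G (Y.erase v)).card := by
  have key : ∀ (T : Finset (Fin 3 × ZMod N)), T ⊆ Y → 3 ≤ T.card → (∀ v ∈ T, G (Y.erase v)) →
      3 ≤ (Y.filter fun v => G (Y.erase v)).card := by
    intro T hT hc hG
    refine hc.trans (card_le_card fun v hv => ?_)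
    exact mem_filter.2 ⟨hT hv, hG v hv⟩
  rcases hY with ⟨a, b, c, _⟩ | ⟨a, b, c, _⟩ | ⟨a, b, c, _⟩
  · refine key (Y.filter fun v => v.1 = 1) (filter_subset _ _) (by
      change 3 ≤ cnt 1 Y; omega) ?_
    intro v hv
    rw [mem_filter] at hv
    have e0 := cnt_erase 0 hv.1
    have e1 := cnt_erase 1 hv.1
    have e2 := cnt_erase 2 hv.1
    simp only [hv.2] at e0 e1 e2
    simp at e0 e1 e2
    right; left; omega
  · refine key (Y.filter fun v => v.1 = 2) (filter_subset _ _) (by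
      change 3 ≤ cnt 2 Y; omega) ?_
    intro v hv
    rw [mem_filter] at hv
    have e0 := cnt_erase 0 hv.1
    have e1 := cnt_erase 1 hv.1
    have e2 := cnt_erase 2 hv.1
    simp only [hv.2] at e0 e1 e2
    simp at e0 e1 e2
    right; right; left; omega
  · refine key ((Y.filter fun v => v.1 = 0) ∪ (Y.filter fun v => v.1 = 2))
      (union_subset (filter_subset _ _) (filter_subset _ _)) ?_ ?_
    · rw [card_union_of_disjoint]
      · change 3 ≤ cnt 0 Y + cnt 2 Y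
        omega
      · rw [Finset.disjoint_left]
        intro v h1 h2
        rw [mem_filter] at h1 h2
        exact absurd (h1.2.symm.trans h2.2) (by decide)
    · intro v hv
      rw [mem_union, mem_filter, mem_filter] at hv
      rcases hv with ⟨hv, hv'⟩ | ⟨hv, hv'⟩
      · have e0 := cnt_erase 0 hv
        have e1 := cnt_erase 1 hv
        have e2 := cnt_erase 2 hv
        simp only [hv'] at e0 e1 e2
        simp at e0 e1 e2
        right; right; right; omega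
      · have e0 := cnt_erase 0 hv
        have e1 := cnt_erase 1 hv
        have e2 := cnt_erase 2 hv
        simp only [hv'] at e0 e1 e2
        simp at e0 e1 e2
        left; omega

/-- Double counting: three main triples in each member, each in exactly one member. -/
lemma three_mul_card_le : (K N).card * 3 ≤ (D N).card * 1 := by
  refine Finset.card_mul_le_card_mul (fun (Y X : Finset (Fin 3 × ZMod N)) => X ⊆ Y) ?_ ?_
  · intro Y hY
    have hKP := mem_K.1 hY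
    refine (three_le hKP).trans ?_
    rw [bipartiteAbove]
    refine Finset.card_le_card_of_injOn (fun v => Y.erase v) ?_ ?_
    · intro v hv
      rw [mem_coe, mem_filter] at hv
      rw [mem_coe, mem_filter]
      refine ⟨mem_filter.2 ⟨erase_mem_shadow hY hv.1, hv.2⟩, erase_subset _ _⟩
    · intro v hv w hw h
      rw [mem_coe, mem_filter] at hv hw
      by_contra hne
      have : v ∈ Y.erase w := mem_erase.2 ⟨hne, hv.1⟩
      simp only at h
      rw [← h] at this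
      exact notMem_erase v Y this
  · intro X hX
    have hG : G X := (mem_filter.1 hX).2
    rw [bipartiteBelow, Finset.card_le_one]
    have hX3 : X.card = 3 := shadow_card K_closed X (mem_filter.1 hX).1
    have ins : ∀ Y : Finset (Fin 3 × ZMod N), KP Y → X ⊆ Y → ∃ v, v ∉ X ∧ Y = insert v X := by
      intro Y hY hXY
      have hc := KP_card hY
      have h1 : (Y \ X).card = 1 := by
        rw [card_sdiff_of_subset hXY]; omega
      obtain ⟨v, hv⟩ := card_eq_one.1 h1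
      refine ⟨v, ?_, ?_⟩
      · have : v ∈ Y \ X := by rw [hv]; exact mem_singleton_self v
        exact (mem_sdiff.1 this).2
      · rw [insert_eq, ← hv, sdiff_union_of_subset hXY]
    intro Y hY Y' hY'
    rw [mem_filter, mem_K] at hY hY'
    obtain ⟨v, hv, rfl⟩ := ins Y hY.1 hY.2
    obtain ⟨w, hw, rfl⟩ := ins Y' hY'.1 hY'.2
    rw [complete_unique hG hv hw hY.1 hY'.1]

/-- The antichain obtained from the construction. -/
lemma exists_flat_three {n : ℕ} (f : (Fin 3 × ZMod N) ↪ Fin n) (hn : 3 ≤ n) :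
    ∃ 𝒜 : Finset (Finset (Fin n)), IsFlatMax n 3 𝒜 ∧
      3 * 𝒜.card + 2 * (D N).card ≤ 3 * n.choose 3 := by
  obtain ⟨𝒜, h0, h1⟩ := exists_flat f (K N) (by norm_num) hn K_closed
  have h2 := three_mul_card_le (N := N)
  have h3 : (D N).card ≤ (∂ (K N)).card := card_filter_le _ _
  exact ⟨𝒜, h0, by omega⟩

/-- The set with prescribed layers. -/
def lay (A : Fin 3 → Finset (ZMod N)) : Finset (Fin 3 × ZMod N) :=
  Finset.univ.filter fun v => v.2 ∈ A v.1

lemma mem_lay {A : Fin 3 → Finset (ZMod N)} {v : Fin 3 × ZMod N} : v ∈ lay A ↔ v.2 ∈ A v.1 := by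
  simp [lay]

lemma lay_filter (A : Fin 3 → Finset (ZMod N)) (i : Fin 3) :
    ((lay A).filter fun v => v.1 = i) = (A i).map ⟨fun x => (i, x), fun x y h => by simpa using h⟩ := by
  ext ⟨j, x⟩
  simp only [mem_filter, mem_lay, mem_map]
  constructor
  · rintro ⟨h1, h2⟩
    subst h2
    exact ⟨x, h1, rfl⟩
  · rintro ⟨y, hy, h⟩
    cases h
    exact ⟨hy, rfl⟩

lemma cnt_lay (A : Fin 3 → Finset (ZMod N)) (i : Fin 3) : cnt i (lay A) = (A i).card := by
  unfold cnt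
  rw [lay_filter, card_map]

lemma sm_lay (A : Fin 3 → Finset (ZMod N)) (i : Fin 3) : sm i (lay A) = ∑ x ∈ A i, x := by
  unfold sm
  rw [lay_filter, sum_map]
  rfl

lemma lay_injective : Function.Injective (lay (N := N)) := by
  intro A B h
  funext i
  ext x
  have : (i, x) ∈ lay A ↔ (i, x) ∈ lay B := by rw [h]
  simpa [mem_lay] using this

lemma mem_D {X : Finset (Fin 3 × ZMod N)} {v : Fin 3 × ZMod N} (hv : v ∉ X) (hG : G X)
    (hK : KP (insert v X)) : X ∈ D N :=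
  mem_filter.2 ⟨mem_shadow_iff_insert_mem.2 ⟨v, hv, mem_K.2 hK⟩, hG⟩

/-- Pairs. -/
def prs (N : ℕ) [NeZero N] : Finset (Finset (ZMod N)) := Finset.univ.powersetCard 2

/-- Pairs `{x, y}` with `- x - y` outside the pair. -/
def gprs (N : ℕ) [NeZero N] : Finset (Finset (ZMod N)) :=
  (prs N).filter fun P => -(∑ x ∈ P, x) ∉ P

lemma card_prs : (prs N).card = N.choose 2 := by
  rw [prs, card_powersetCard, card_univ, ZMod.card]

lemma card_gprs : N.choose 2 ≤ (gprs N).card + N := by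
  have h1 : (prs N).card = (gprs N).card + ((prs N).filter fun P => ¬ (-(∑ x ∈ P, x) ∉ P)).card :=
    (card_filter_add_card_filter_not _).symm
  have h2 : ((prs N).filter fun P => ¬ (-(∑ x ∈ P, x) ∉ P)) ⊆
      (Finset.univ : Finset (ZMod N)).image (fun x => ({x, -(x + x)} : Finset (ZMod N))) := by
    intro P hP
    rw [mem_filter, prs, mem_powersetCard] at hP
    obtain ⟨⟨_, hc⟩, hb⟩ := hP
    rw [not_not] at hb
    obtain ⟨x, y, hxy, rfl⟩ := card_eq_two.1 hc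
    rw [sum_pair hxy, mem_insert, mem_singleton] at hb
    rw [mem_image]
    rcases hb with hb | hb
    · refine ⟨x, mem_univ _, ?_⟩
      have : y = -(x + x) := by linear_combination (-1 : ZMod N) * hb
      rw [this]
    · refine ⟨y, mem_univ _, ?_⟩
      have : x = -(y + y) := by linear_combination (-1 : ZMod N) * hb
      rw [this]
      exact pair_comm _ _
  have h3 := card_le_card h2
  have h4 : ((Finset.univ : Finset (ZMod N)).image
      (fun x => ({x, -(x + x)} : Finset (ZMod N)))).card ≤ N := by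
    refine card_image_le.trans ?_
    rw [card_univ, ZMod.card]
  rw [card_prs] at h1
  omega

/-- The four families of covered main triples. -/
def I1 (N : ℕ) [NeZero N] : Finset (Finset (Fin 3 × ZMod N)) :=
  ((prs N) ×ˢ (Finset.univ : Finset (ZMod N))).image fun p => lay ![p.1, {p.2}, ∅]

def I2 (N : ℕ) [NeZero N] : Finset (Finset (Fin 3 × ZMod N)) :=
  ((Finset.univ : Finset (ZMod N)) ×ˢ (Finset.univ : Finset (ZMod N)) ×ˢ
    ((Finset.univ : Finset (ZMod N)).erase 0)).image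
    fun p => lay ![{p.1}, {p.2.1}, {p.1 + p.1 + p.2.2}]

def I3 (N : ℕ) [NeZero N] : Finset (Finset (Fin 3 × ZMod N)) :=
  ((gprs N) ×ˢ (Finset.univ : Finset (ZMod N))).image fun p => lay ![∅, p.1, {p.2}]

def I4 (N : ℕ) [NeZero N] : Finset (Finset (Fin 3 × ZMod N)) :=
  ((gprs N) ×ˢ (Finset.univ : Finset (ZMod N))).image fun p => lay ![{p.2}, ∅, p.1]

lemma card_I1 : (I1 N).card = N.choose 2 * N := by
  rw [I1, card_image_of_injective, card_product, card_prs, card_univ, ZMod.card]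
  rintro ⟨P, b⟩ ⟨Q, c⟩ h
  have h' := lay_injective h
  have h0 := congrFun h' 0
  have h1 := congrFun h' 1
  simp at h0 h1
  rw [h0, h1]

lemma card_I2 : (I2 N).card = N * (N * (N - 1)) := by
  rw [I2, card_image_of_injective, card_product, card_product, card_erase_of_mem (mem_univ _),
    card_univ, ZMod.card]
  rintro ⟨a, b, c⟩ ⟨a', b', c'⟩ h
  have h' := lay_injective h
  have h0 := congrFun h' 0
  have h1 := congrFun h' 1
  have h2 := congrFun h' 2
  simp at h0 h1 h2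
  subst h0 h1
  simpa using h2

lemma card_I3 : (I3 N).card = (gprs N).card * N := by
  rw [I3, card_image_of_injective, card_product, card_univ, ZMod.card]
  rintro ⟨P, b⟩ ⟨Q, c⟩ h
  have h' := lay_injective h
  have h1 := congrFun h' 1
  have h2 := congrFun h' 2
  simp at h1 h2
  rw [h1, h2]

lemma card_I4 : (I4 N).card = (gprs N).card * N := by
  rw [I4, card_image_of_injective, card_product, card_univ, ZMod.card]
  rintro ⟨P, b⟩ ⟨Q, c⟩ h
  have h' := lay_injective h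
  have h1 := congrFun h' 0
  have h2 := congrFun h' 2
  simp at h1 h2
  rw [h1, h2]

lemma I1_type : ∀ X ∈ I1 N, (cnt 0 X = 2 ∧ cnt 1 X = 1 ∧ cnt 2 X = 0) ∧ X ∈ D N := by
  intro X hX
  obtain ⟨⟨P, b⟩, hp, rfl⟩ := mem_image.1 hX
  rw [mem_product, prs, mem_powersetCard] at hp
  have hc : P.card = 2 := hp.1.2
  have c0 : cnt 0 (lay ![P, {b}, (∅ : Finset (ZMod N))]) = 2 := by rw [cnt_lay]; simpa using hc
  have c1 : cnt 1 (lay ![P, {b}, (∅ : Finset (ZMod N))]) = 1 := by rw [cnt_lay]; simp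
  have c2 : cnt 2 (lay ![P, {b}, (∅ : Finset (ZMod N))]) = 0 := by rw [cnt_lay]; simp
  have s0 : sm 0 (lay ![P, {b}, (∅ : Finset (ZMod N))]) = ∑ x ∈ P, x := by rw [sm_lay]; simp
  have s2 : sm 2 (lay ![P, {b}, (∅ : Finset (ZMod N))]) = 0 := by rw [sm_lay]; simp
  refine ⟨⟨c0, c1, c2⟩, ?_⟩
  have hv : ((2 : Fin 3), ∑ x ∈ P, x) ∉ lay ![P, {b}, (∅ : Finset (ZMod N))] := by
    rw [mem_lay]; simp
  refine mem_D hv (Or.inl ⟨c0, c1, c2⟩) (Or.inr (Or.inr ?_))
  rw [cnt_insert _ hv, cnt_insert _ hv, cnt_insert _ hv, sm_insert _ hv, sm_insert _ hv,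
    c0, c1, c2, s0, s2]
  simp

lemma I2_type : ∀ X ∈ I2 N, (cnt 0 X = 1 ∧ cnt 1 X = 1 ∧ cnt 2 X = 1) ∧ X ∈ D N := by
  intro X hX
  obtain ⟨⟨a, b, d⟩, hp, rfl⟩ := mem_image.1 hX
  simp only [mem_product, mem_univ, true_and, mem_erase, and_true] at hp
  set X := lay ![{a}, {b}, ({a + a + d} : Finset (ZMod N))] with hXd
  have c0 : cnt 0 X = 1 := by rw [hXd, cnt_lay]; simp
  have c1 : cnt 1 X = 1 := by rw [hXd, cnt_lay]; simp
  have c2 : cnt 2 X = 1 := by rw [hXd, cnt_lay]; simp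
  have s0 : sm 0 X = a := by rw [hXd, sm_lay]; simp
  have s2 : sm 2 X = a + a + d := by rw [hXd, sm_lay]; simp
  refine ⟨⟨c0, c1, c2⟩, ?_⟩
  have hv : ((0 : Fin 3), a + d) ∉ X := by
    rw [hXd, mem_lay]; simpa using hp
  refine mem_D hv (Or.inr (Or.inr (Or.inr ⟨c0, c1, c2⟩))) (Or.inr (Or.inr ?_))
  rw [cnt_insert _ hv, cnt_insert _ hv, cnt_insert _ hv, sm_insert _ hv, sm_insert _ hv,
    c0, c1, c2, s0, s2]
  simp [add_assoc]

lemma I3_type : ∀ X ∈ I3 N, (cnt 0 X = 0 ∧ cnt 1 X = 2 ∧ cnt 2 X = 1) ∧ X ∈ D N := by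
  intro X hX
  obtain ⟨⟨P, w⟩, hp, rfl⟩ := mem_image.1 hX
  rw [mem_product, gprs, mem_filter, prs, mem_powersetCard] at hp
  have hc : P.card = 2 := hp.1.1.2
  have hn : -(∑ x ∈ P, x) ∉ P := hp.1.2
  set X := lay ![(∅ : Finset (ZMod N)), P, {w}] with hXd
  have c0 : cnt 0 X = 0 := by rw [hXd, cnt_lay]; simp
  have c1 : cnt 1 X = 2 := by rw [hXd, cnt_lay]; simpa using hc
  have c2 : cnt 2 X = 1 := by rw [hXd, cnt_lay]; simp
  have s1 : sm 1 X = ∑ x ∈ P, x := by rw [hXd, sm_lay]; simp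
  refine ⟨⟨c0, c1, c2⟩, ?_⟩
  have hv : ((1 : Fin 3), -(∑ x ∈ P, x)) ∉ X := by
    rw [hXd, mem_lay]; simpa using hn
  refine mem_D hv (Or.inr (Or.inl ⟨c0, c1, c2⟩)) (Or.inl ?_)
  rw [cnt_insert _ hv, cnt_insert _ hv, cnt_insert _ hv, sm_insert _ hv,
    c0, c1, c2, s1]
  simp

lemma I4_type : ∀ X ∈ I4 N, (cnt 0 X = 1 ∧ cnt 1 X = 0 ∧ cnt 2 X = 2) ∧ X ∈ D N := by
  intro X hX
  obtain ⟨⟨P, w⟩, hp, rfl⟩ := mem_image.1 hX
  rw [mem_product, gprs, mem_filter, prs, mem_powersetCard] at hp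
  have hc : P.card = 2 := hp.1.1.2
  have hn : -(∑ x ∈ P, x) ∉ P := hp.1.2
  set X := lay ![{w}, (∅ : Finset (ZMod N)), P] with hXd
  have c0 : cnt 0 X = 1 := by rw [hXd, cnt_lay]; simp
  have c1 : cnt 1 X = 0 := by rw [hXd, cnt_lay]; simp
  have c2 : cnt 2 X = 2 := by rw [hXd, cnt_lay]; simpa using hc
  have s2 : sm 2 X = ∑ x ∈ P, x := by rw [hXd, sm_lay]; simp
  refine ⟨⟨c0, c1, c2⟩, ?_⟩
  have hv : ((2 : Fin 3), -(∑ x ∈ P, x)) ∉ X := by
    rw [hXd, mem_lay]; simpa using hn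
  refine mem_D hv (Or.inr (Or.inr (Or.inl ⟨c0, c1, c2⟩))) (Or.inr (Or.inl ?_))
  rw [cnt_insert _ hv, cnt_insert _ hv, cnt_insert _ hv, sm_insert _ hv,
    c0, c1, c2, s2]
  simp

lemma card_D_ge : (I1 N).card + (I2 N).card + (I3 N).card + (I4 N).card ≤ (D N).card := by
  have d12 : Disjoint (I1 N) (I2 N) := by
    rw [Finset.disjoint_left]; intro X h1 h2
    have := (I1_type X h1).1; have := (I2_type X h2).1; omega
  have d13 : Disjoint (I1 N) (I3 N) := by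
    rw [Finset.disjoint_left]; intro X h1 h2
    have := (I1_type X h1).1; have := (I3_type X h2).1; omega
  have d14 : Disjoint (I1 N) (I4 N) := by
    rw [Finset.disjoint_left]; intro X h1 h2
    have := (I1_type X h1).1; have := (I4_type X h2).1; omega
  have d23 : Disjoint (I2 N) (I3 N) := by
    rw [Finset.disjoint_left]; intro X h1 h2
    have := (I2_type X h1).1; have := (I3_type X h2).1; omega
  have d24 : Disjoint (I2 N) (I4 N) := by
    rw [Finset.disjoint_left]; intro X h1 h2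
    have := (I2_type X h1).1; have := (I4_type X h2).1; omega
  have d34 : Disjoint (I3 N) (I4 N) := by
    rw [Finset.disjoint_left]; intro X h1 h2
    have := (I3_type X h1).1; have := (I4_type X h2).1; omega
  have e1 : (I1 N ∪ I2 N ∪ I3 N ∪ I4 N).card
      = (I1 N).card + (I2 N).card + (I3 N).card + (I4 N).card := by
    rw [card_union_of_disjoint, card_union_of_disjoint, card_union_of_disjoint d12]
    · rw [disjoint_union_left]; exact ⟨d13, d23⟩
    · rw [disjoint_union_left, disjoint_union_left]; exact ⟨⟨d14, d24⟩, d34⟩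
  rw [← e1]
  refine card_le_card ?_
  intro X hX
  simp only [mem_union] at hX
  rcases hX with ((h | h) | h) | h
  · exact (I1_type X h).2
  · exact (I2_type X h).2
  · exact (I3_type X h).2
  · exact (I4_type X h).2

/-- Final count for the construction. -/
lemma two_card_D : 5 * N ^ 3 ≤ 2 * (D N).card + 9 * N ^ 2 := by
  have h := card_D_ge (N := N)
  rw [card_I1, card_I2, card_I3, card_I4] at h
  have h2 := card_gprs (N := N)
  have h3 : N.choose 2 * 2 + N = N ^ 2 := by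
    have := Nat.triangle_succ (N - 1)
    have hN : N ≠ 0 := NeZero.ne N
    rw [Nat.choose_two_right, Nat.div_mul_cancel (Nat.even_mul_pred_self N).two_dvd]
    obtain ⟨k, rfl⟩ := Nat.exists_eq_succ_of_ne_zero hN
    simp only [Nat.succ_eq_add_one, Nat.add_sub_cancel]
    ring
  have hN : 1 ≤ N := Nat.one_le_iff_ne_zero.2 (NeZero.ne N)
  obtain ⟨k, hk⟩ := Nat.exists_eq_add_of_le hN
  have h4 : N - 1 = k := by omega
  rw [h4] at h
  set g := (gprs N).card
  set c := N.choose 2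
  set d := (D N).card
  have h5 : c * N ≤ g * N + N * N := by nlinarith
  have h6 : c * N * 2 + N * N = N ^ 3 := by nlinarith
  have h7 : N * (N * k) + N * N = N ^ 3 := by rw [hk]; ring
  nlinarith

end counting

end Pool.Agent.Helper33.FlatThree
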