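import Mathlib
import Pool.Agent.Helper33.FlatProd

set_option autoImplicit false

open Finset

namespace Pool.Agent.Helper33.FlatTree

open Pool.Agent.Helper33.FlatProd

/-- Number of ways to complete a set of size `q` to a set of size `l` using `u` further points. -/
def wt (u l q : ℕ) : ℕ := if q ≤ l then u.choose (l - q) else 0

lemma badN_eq {B : Type} [Fintype B] [DecidableEq B] (u : ℕ) (𝒢 : Finset B → Prop)
    [DecidablePred 𝒢] (l : ℕ) :
    badN u 𝒢 l = ∑ Q ∈ univ.filter (fun Q : Finset B => ¬ 𝒢 Q), wt u l Q.card := rfl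

/-- Vandermonde in the form needed. -/
lemma sum_wt {α : Type} [DecidableEq α] (S : Finset α) (u l r : ℕ) :
    ∑ P ∈ S.powerset, wt u l (P.card + r) = wt (u + S.card) l r := by
  rw [sum_powerset_apply_card (fun j => wt u l (j + r))]
  unfold wt
  by_cases hr : r ≤ l
  · rw [if_pos hr]
    obtain ⟨d, rfl⟩ := Nat.exists_eq_add_of_le hr
    have e : r + d - r = d := by omega
    rw [e, add_comm u, Nat.add_choose_eq, Finset.Nat.sum_antidiagonal_eq_sum_range_succ_mk]
    -- compare the two ranges
    have h1 : ∀ j, (S.card.choose j) • (if j + r ≤ r + d then u.choose (r + d - (j + r)) else 0)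
        = if j ≤ d then S.card.choose j * u.choose (d - j) else 0 := by
      intro j
      by_cases hj : j ≤ d
      · rw [if_pos hj, if_pos (by omega), smul_eq_mul]
        congr 2
        omega
      · rw [if_neg hj, if_neg (by omega), smul_zero]
    simp only [h1]
    have h2 : ∑ j ∈ range (S.card + 1), (if j ≤ d then S.card.choose j * u.choose (d - j) else 0)
        = ∑ j ∈ range (S.card + 1 + (d + 1)),
          (if j ≤ d then S.card.choose j * u.choose (d - j) else 0) := by
      refine sum_subset (range_subset_range.2 (by omega)) ?_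
      intro j _ hj
      rw [mem_range, not_lt] at hj
      rw [Nat.choose_eq_zero_of_lt (by omega), zero_mul, ite_self]
    have h3 : ∑ j ∈ range (d + 1), S.card.choose j * u.choose (d - j)
        = ∑ j ∈ range (S.card + 1 + (d + 1)),
          (if j ≤ d then S.card.choose j * u.choose (d - j) else 0) := by
      rw [← sum_subset (range_subset_range.2 (show d + 1 ≤ S.card + 1 + (d + 1) by omega))]
      · refine sum_congr rfl fun j hj => ?_
        rw [if_pos (by rw [mem_range] at hj; omega)]
      · intro j _ hj
        rw [mem_range, not_lt] at hj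
        rw [if_neg (by omega)]
    rw [h2, ← h3]
  · rw [if_neg hr]
    refine sum_eq_zero fun j _ => ?_
    rw [if_neg (by omega), smul_zero]

lemma sum_wt_univ {α : Type} [Fintype α] [DecidableEq α] (u l r : ℕ) :
    ∑ P : Finset α, wt u l (P.card + r) = wt (u + Fintype.card α) l r := by
  have := sum_wt (univ : Finset α) u l r
  rwa [powerset_univ, card_univ] at this

section step

set_option linter.unusedSectionVars false

variable {B : Type} [Fintype B] [DecidableEq B] (𝒢 : Finset B → Prop) [DecidablePred 𝒢]
  (k s : ℕ)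

/-- Colour of a point of the top level. -/
def col (p : Fin k × Fin s) : ZMod (k + 1) := ((p.1 : ℕ) : ZMod (k + 1)) + 1

/-- Colour sum. -/
def W (P : Finset (Fin k × Fin s)) : ZMod (k + 1) := ∑ p ∈ P, col k s p

/-- The family one level up. -/
def up (t : ZMod (k + 1)) (Q : Finset ((Fin k × Fin s) ⊕ B)) : Prop :=
  W k s Q.toLeft ≠ t ∧ ((∃ p ∈ Q.toLeft, col k s p = W k s Q.toLeft - t) ∨ 𝒢 Q.toRight)

instance (t : ZMod (k + 1)) : DecidablePred (up 𝒢 k s t) := fun Q => by
  unfold up; infer_instance

variable {𝒢}

lemma up_good (hG : Good 𝒢) (t : ZMod (k + 1)) : Good (up 𝒢 k s t) := by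
  intro Q hQ
  by_cases h : ∃ p ∈ Q.toLeft, col k s p = W k s Q.toLeft - t
  · obtain ⟨p, hp, hc⟩ := h
    refine ⟨.inl p, mem_toLeft.1 hp, ?_⟩
    rintro ⟨h1, -⟩
    apply h1
    have e : (Q.erase (.inl p)).toLeft = Q.toLeft.erase p := by ext y; simp
    rw [e, W, sum_erase_eq_sub hp, hc, W]
    ring
  · have hR : 𝒢 Q.toRight := hQ.2.resolve_left h
    obtain ⟨q, hq, hn⟩ := hG _ hR
    refine ⟨.inr q, mem_toRight.1 hq, ?_⟩
    rintro ⟨-, h2⟩
    have e : (Q.erase (.inr q)).toLeft = Q.toLeft := by ext y; simp
    have e' : (Q.erase (.inr q)).toRight = Q.toRight.erase q := by ext y; simp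
    rw [e, e'] at h2
    rcases h2 with h2 | h2
    · exact h h2
    · exact hn h2

/-- Number of shifts for which a given set is bad. -/
lemma card_bad_shift (Q : Finset ((Fin k × Fin s) ⊕ B)) :
    (univ.filter fun t : ZMod (k + 1) => ¬ up 𝒢 k s t Q).card ≤
      1 + if 𝒢 Q.toRight then 0 else
        (univ.filter fun i : Fin k => ∀ x : Fin s, (i, x) ∉ Q.toLeft).card := by
  by_cases hR : 𝒢 Q.toRight
  · rw [if_pos hR, add_zero, card_le_one]
    intro t ht t' ht'
    simp only [mem_filter, mem_univ, true_and, up, hR, or_true, and_true, not_not] at ht ht'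
    rw [← ht, ← ht']
  · rw [if_neg hR]
    have hsub : (univ.filter fun t : ZMod (k + 1) => ¬ up 𝒢 k s t Q) ⊆
        insert (W k s Q.toLeft) ((univ.filter fun i : Fin k => ∀ x : Fin s, (i, x) ∉ Q.toLeft).image
          fun i : Fin k => W k s Q.toLeft - (((i : ℕ) : ZMod (k + 1)) + 1)) := by
      intro t ht
      rw [mem_insert, mem_image]
      simp only [mem_filter, mem_univ, true_and, up, hR, or_false] at ht
      by_cases h : t = W k s Q.toLeft
      · exact Or.inl h
      · right
        have hne : W k s Q.toLeft ≠ t := fun h' => h h'.symm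
        have hno : ¬ ∃ p ∈ Q.toLeft, col k s p = W k s Q.toLeft - t := fun h' => ht ⟨hne, h'⟩
        set c : ZMod (k + 1) := W k s Q.toLeft - t with hc
        have hc0 : c ≠ 0 := sub_ne_zero.2 hne
        -- the colour as an element of Fin k
        have hval : c.val ≠ 0 := by rwa [Ne, ZMod.val_eq_zero]
        have hlt : c.val < k + 1 := ZMod.val_lt c
        refine ⟨⟨c.val - 1, by omega⟩, ?_, ?_⟩
        · rw [mem_filter]
          refine ⟨mem_univ _, fun x hx => hno ⟨_, hx, ?_⟩⟩
          unfold col
          simp only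
          rw [Nat.cast_sub (by omega), ZMod.natCast_zmod_val]
          push_cast
          ring
        · simp only
          rw [Nat.cast_sub (by omega), ZMod.natCast_zmod_val, hc]
          push_cast
          ring
    refine (card_le_card hsub).trans ((card_insert_le _ _).trans ?_)
    rw [add_comm]
    exact Nat.add_le_add_left card_image_le _

lemma card_toLeft_right (Q : Finset ((Fin k × Fin s) ⊕ B)) :
    Q.card = Q.toLeft.card + Q.toRight.card := card_toLeft_add_card_toRight.symm

lemma sum_over_pairs (f : Finset (Fin k × Fin s) → Finset B → ℕ) :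
    ∑ Q : Finset ((Fin k × Fin s) ⊕ B), f Q.toLeft Q.toRight
      = ∑ R : Finset B, ∑ P : Finset (Fin k × Fin s), f P R := by
  rw [← sum_product']
  refine Finset.sum_bij' (fun Q _ => (Q.toRight, Q.toLeft)) (fun p _ => p.2.disjSum p.1)
    ?_ ?_ ?_ ?_ ?_
  · intro Q _; simp
  · intro p _; simp
  · intro Q _; exact toLeft_disjSum_toRight
  · rintro ⟨a, b⟩ _; simp
  · intro Q _; rfl

/-- The averaged count. -/
lemma sum_badN_up (u l : ℕ) :
    ∑ t : ZMod (k + 1), badN u (up 𝒢 k s t) l ≤
      (u + (k * s + Fintype.card B)).choose l + k * badN (u + (k - 1) * s) 𝒢 l := by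
  classical
  have e1 : ∑ t : ZMod (k + 1), badN u (up 𝒢 k s t) l =
      ∑ Q : Finset ((Fin k × Fin s) ⊕ B),
        (univ.filter fun t : ZMod (k + 1) => ¬ up 𝒢 k s t Q).card * wt u l Q.card := by
    simp only [badN_eq, sum_filter]
    rw [sum_comm]
    refine sum_congr rfl fun Q _ => ?_
    rw [card_filter, sum_mul]
    exact sum_congr rfl fun t _ => by split_ifs <;> simp
  rw [e1]
  calc ∑ Q : Finset ((Fin k × Fin s) ⊕ B),
        (univ.filter fun t : ZMod (k + 1) => ¬ up 𝒢 k s t Q).card * wt u l Q.card
      ≤ ∑ Q : Finset ((Fin k × Fin s) ⊕ B),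
        (1 + if 𝒢 Q.toRight then 0 else
        (univ.filter fun i : Fin k => ∀ x : Fin s, (i, x) ∉ Q.toLeft).card) *
          wt u l (Q.toLeft.card + Q.toRight.card) := by
        refine sum_le_sum fun Q _ => ?_
        rw [← card_toLeft_right]
        exact Nat.mul_le_mul_right _ (card_bad_shift k s Q)
    _ = ∑ Q : Finset ((Fin k × Fin s) ⊕ B), wt u l (Q.toLeft.card + Q.toRight.card) +
        ∑ Q : Finset ((Fin k × Fin s) ⊕ B), (if 𝒢 Q.toRight then 0 else
        (univ.filter fun i : Fin k => ∀ x : Fin s, (i, x) ∉ Q.toLeft).card) *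
          wt u l (Q.toLeft.card + Q.toRight.card) := by
        rw [← sum_add_distrib]
        exact sum_congr rfl fun Q _ => by ring
    _ ≤ (u + (k * s + Fintype.card B)).choose l + k * badN (u + (k - 1) * s) 𝒢 l := by
        refine Nat.add_le_add (le_of_eq ?_) (le_of_eq ?_)
        · have h := sum_wt_univ (α := (Fin k × Fin s) ⊕ B) u l 0
          have h2 : wt (u + Fintype.card ((Fin k × Fin s) ⊕ B)) l 0
              = (u + (k * s + Fintype.card B)).choose l := by
            unfold wt
            rw [if_pos (Nat.zero_le _), Fintype.card_sum, Fintype.card_prod, Fintype.card_fin,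
              Fintype.card_fin, Nat.sub_zero]
          rw [← h2, ← h]
          exact sum_congr rfl fun Q _ => by rw [add_zero, card_toLeft_right]
        · rw [sum_over_pairs k s (fun P R => (if 𝒢 R then 0 else
            (univ.filter fun i : Fin k => ∀ x : Fin s, (i, x) ∉ P).card) *
              wt u l (P.card + R.card))]
          rw [badN_eq, mul_sum, sum_filter]
          refine sum_congr rfl fun R _ => ?_
          by_cases hR : 𝒢 R
          · simp [hR]
          · simp only [hR, if_false, not_false_eq_true, if_true]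
            have e2 : ∀ P : Finset (Fin k × Fin s),
                (univ.filter fun i : Fin k => ∀ x : Fin s, (i, x) ∉ P).card *
                  wt u l (P.card + R.card) =
                ∑ i : Fin k, if (∀ x : Fin s, (i, x) ∉ P) then wt u l (P.card + R.card) else 0 := by
              intro P
              rw [card_filter, sum_mul]
              exact sum_congr rfl fun t _ => by split_ifs <;> simp
            simp only [e2]
            rw [sum_comm]
            have e3 : ∀ i : Fin k, ∑ P : Finset (Fin k × Fin s),
                (if (∀ x : Fin s, (i, x) ∉ P) then wt u l (P.card + R.card) else 0)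
                = wt (u + (k - 1) * s) l R.card := by
              intro i
              rw [← sum_filter]
              have e4 : (univ.filter fun P : Finset (Fin k × Fin s) => ∀ x : Fin s, (i, x) ∉ P)
                  = ((univ.filter fun p : Fin k × Fin s => p.1 ≠ i)).powerset := by
                ext P
                simp only [mem_filter, mem_univ, true_and, mem_powerset]
                constructor
                · intro h p hp
                  rw [mem_filter]
                  refine ⟨mem_univ _, fun hpi => h p.2 ?_⟩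
                  rw [← hpi]
                  exact hp
                · intro h x hx
                  exact (mem_filter.1 (h hx)).2 rfl
              have e5 : (univ.filter fun p : Fin k × Fin s => p.1 ≠ i).card = (k - 1) * s := by
                have : (univ.filter fun p : Fin k × Fin s => p.1 ≠ i)
                    = (univ.erase i) ×ˢ (univ : Finset (Fin s)) := by
                  ext p
                  simp
                rw [this, card_product, card_erase_of_mem (mem_univ _), card_univ, card_univ,
                  Fintype.card_fin, Fintype.card_fin]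
              rw [e4, sum_wt, e5]
            rw [sum_congr rfl fun i _ => e3 i, sum_const, card_univ, Fintype.card_fin, smul_eq_mul]

end step

/-- Iterating the step gives good families with few bad sets. -/
theorem exists_tree (l v s : ℕ) (r : ℝ) (hr0 : 0 ≤ r) (hr1 : r < 1)
    (hH : ∀ w : ℕ, w + s ≤ v → (w.choose l : ℝ) ≤ (r / 2) * ((w + s).choose l : ℝ)) (J : ℕ) :
    ∀ u : ℕ, u + (2 ^ J - 1) * s ≤ v → ∃ (B : Type) (_ : Fintype B) (_ : DecidableEq B)
      (𝒢 : Finset B → Prop) (_ : DecidablePred 𝒢), Fintype.card B = (2 ^ J - 1) * s ∧ Good 𝒢 ∧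
        (badN u 𝒢 l : ℝ) ≤ ((u + (2 ^ J - 1) * s).choose l : ℝ) * (2 / 2 ^ J) / (1 - r) := by
  induction J with
  | zero =>
    intro u _
    refine ⟨PEmpty, inferInstance, inferInstance, fun _ => False, fun _ => inferInstance, by simp,
      fun Q h => h.elim, ?_⟩
    have h1 : badN (B := PEmpty) u (fun _ => False) l = u.choose l := by
      have h0 : (univ.filter fun Q : Finset PEmpty => ¬ False) = {∅} := by
        ext Q
        rw [mem_filter, mem_singleton]
        exact ⟨fun _ => Finset.eq_empty_of_isEmpty Q, fun _ => ⟨mem_univ _, not_false⟩⟩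
      rw [badN_eq, h0, sum_singleton]
      simp [wt]
    rw [h1]
    have h2 : (0 : ℝ) ≤ (u.choose l : ℝ) := Nat.cast_nonneg _
    have h3 : 0 < 1 - r := by linarith
    rw [le_div_iff₀ h3]
    simp only [pow_zero, Nat.sub_self, zero_mul, add_zero, div_one]
    nlinarith
  | succ J ih =>
    intro u hu
    set k : ℕ := 2 ^ J with hk
    have hk1 : 1 ≤ k := Nat.one_le_two_pow
    have hk2 : 2 ^ (J + 1) - 1 = k + (k - 1) := by rw [pow_succ, ← hk]; omega
    rw [hk2] at hu ⊢
    have e1 : u + (k - 1) * s + (k - 1) * s + s = u + (k + (k - 1)) * s := by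
      obtain ⟨m, hm⟩ := Nat.exists_eq_add_of_le hk1
      rw [hm]
      have : 1 + m - 1 = m := by omega
      rw [this]
      ring
    obtain ⟨B, i1, i2, 𝒢, i3, hc, hG, hb⟩ := ih (u + (k - 1) * s) (by omega)
    have hsum := sum_badN_up (𝒢 := 𝒢) k s u l
    have e2 : u + (k * s + Fintype.card B) = u + (k + (k - 1)) * s := by rw [hc]; ring
    rw [e2] at hsum
    -- choose a good shift
    obtain ⟨t, ht⟩ : ∃ t : ZMod (k + 1), (k + 1) * badN u (up 𝒢 k s t) l ≤
        (u + (k + (k - 1)) * s).choose l + k * badN (u + (k - 1) * s) 𝒢 l := by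
      by_contra hcon
      push Not at hcon
      have h1 : ∑ t : ZMod (k + 1), (k + 1) * badN u (up 𝒢 k s t) l >
          ∑ t : ZMod (k + 1), ((u + (k + (k - 1)) * s).choose l +
            k * badN (u + (k - 1) * s) 𝒢 l) :=
        sum_lt_sum_of_nonempty ⟨0, mem_univ _⟩ fun t _ => hcon t
      rw [← mul_sum, sum_const, card_univ, ZMod.card, smul_eq_mul] at h1
      have := Nat.mul_le_mul_left (k + 1) hsum
      omega
    refine ⟨(Fin k × Fin s) ⊕ B, inferInstance, inferInstance, up 𝒢 k s t, inferInstance, ?_,
      up_good k s hG t, ?_⟩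
    · rw [Fintype.card_sum, Fintype.card_prod, Fintype.card_fin, Fintype.card_fin, hc]
      ring
    · set w := u + (k + (k - 1)) * s with hw
      have h3 : 0 < 1 - r := by linarith
      have hH' := hH (u + (k - 1) * s + (k - 1) * s) (by rw [e1]; exact hu)
      rw [e1] at hH'
      have hkr : (0 : ℝ) < (k : ℝ) := by exact_mod_cast hk1
      have e3 : (2 : ℝ) ^ J = (k : ℝ) := by rw [hk]; push_cast; rfl
      rw [e3] at hb
      have hb2 : (k : ℝ) * (badN (u + (k - 1) * s) 𝒢 l : ℝ) ≤ (w.choose l : ℝ) * r / (1 - r) := by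
        calc (k : ℝ) * (badN (u + (k - 1) * s) 𝒢 l : ℝ)
            ≤ k * (((u + (k - 1) * s + (k - 1) * s).choose l : ℝ) * (2 / k) / (1 - r)) :=
              mul_le_mul_of_nonneg_left hb hkr.le
          _ = ((u + (k - 1) * s + (k - 1) * s).choose l : ℝ) * 2 / (1 - r) := by
              field_simp
          _ ≤ ((r / 2) * (w.choose l : ℝ)) * 2 / (1 - r) := by
              gcongr
          _ = (w.choose l : ℝ) * r / (1 - r) := by ring
      have ht' : ((k : ℝ) + 1) * (badN u (up 𝒢 k s t) l : ℝ) ≤
          (w.choose l : ℝ) + k * (badN (u + (k - 1) * s) 𝒢 l : ℝ) := by exact_mod_cast ht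
      have h4 : ((k : ℝ) + 1) * (badN u (up 𝒢 k s t) l : ℝ) ≤ (w.choose l : ℝ) / (1 - r) := by
        calc _ ≤ _ := ht'
          _ ≤ (w.choose l : ℝ) + (w.choose l : ℝ) * r / (1 - r) := by linarith
          _ = (w.choose l : ℝ) / (1 - r) := by field_simp; ring
      have h5 : (k : ℝ) * (badN u (up 𝒢 k s t) l : ℝ) ≤ (w.choose l : ℝ) / (1 - r) := by
        have : (0 : ℝ) ≤ (badN u (up 𝒢 k s t) l : ℝ) := Nat.cast_nonneg _
        linarith
      have e4 : (2 : ℝ) / 2 ^ (J + 1) = 1 / k := by
        rw [pow_succ, e3]
        field_simp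
      rw [e4]
      have e5 : (w.choose l : ℝ) * (1 / k) / (1 - r) = ((w.choose l : ℝ) / (1 - r)) / k := by
        field_simp
      rw [e5, le_div_iff₀ hkr]
      linarith

end Pool.Agent.Helper33.FlatTree
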